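import Pool.Agent.H850.TF.Clifford

/-!
# Averaging over a subgroup of finite index, and the double centraliser theorem
-/

set_option autoImplicit false
set_option linter.unusedSectionVars false

namespace Pool.Agent.H850.TF

variable {N : ℕ} {K : Type} [Field K]

/-- semisimplicity can be checked on a subgroup of finite index -/
theorem CR_of_finiteIndex [CharZero K] {Γ : Type} [Group Γ]
    (A : Γ →* Matrix (Fin N) (Fin N) K) (H : Subgroup Γ) [H.FiniteIndex]
    (hA : CR (A '' (H : Set Γ))) : CR (Set.range A) := by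
  classical
  intro W hW
  obtain ⟨W', hW', hc⟩ := hA W (by
    rintro _ ⟨σ, -, rfl⟩ x hx
    exact hW _ ⟨σ, rfl⟩ x hx)
  have : Fintype (Γ ⧸ H) := Fintype.ofFinite _
  set n := Fintype.card (Γ ⧸ H) with hn
  have hn0 : (n : K) ≠ 0 := by
    have : n ≠ 0 := Fintype.card_ne_zero
    exact_mod_cast this
  -- the projection
  set π : (Fin N → K) →ₗ[K] (Fin N → K) := W.subtype ∘ₗ W.projectionOnto W' hc with hπ
  have hπW : ∀ x, π x ∈ W := fun x => (W.projectionOnto W' hc x).2
  have hπid : ∀ x ∈ W, π x = x := by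
    intro x hx
    have := Submodule.projectionOnto_apply_left hc ⟨x, hx⟩
    exact congrArg Subtype.val this
  have hπ' : ∀ x ∈ W', π x = 0 := by
    intro x hx
    have := Submodule.projectionOnto_apply_right hc ⟨x, hx⟩
    exact congrArg Subtype.val this
  have hAW : ∀ σ, ∀ x ∈ W, (A σ).mulVec x ∈ W := fun σ x hx => hW _ ⟨σ, rfl⟩ x hx
  have hcomm : ∀ h ∈ H, ∀ x, π ((A h).mulVec x) = (A h).mulVec (π x) := by
    intro h hh x
    have h3 : x ∈ W ⊔ W' := by rw [codisjoint_iff.1 hc.2]; trivial
    obtain ⟨y, hy, z, hz, rfl⟩ := Submodule.mem_sup.1 h3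
    rw [Matrix.mulVec_add, map_add, map_add, hπid y hy, hπ' z hz,
      hπid _ (hAW h y hy), hπ' _ (hW' _ ⟨h, hh, rfl⟩ z hz), add_zero, add_zero]
  have hinv : ∀ σ, ∀ x, (A σ).mulVec ((A σ⁻¹).mulVec x) = x := by
    intro σ x
    rw [Matrix.mulVec_mulVec, ← map_mul, mul_inv_cancel, map_one, Matrix.one_mulVec]
  -- conjugates of the projection depend only on the coset
  have hcos : ∀ σ τ : Γ, σ⁻¹ * τ ∈ H → ∀ x, (A σ).mulVec (π ((A σ⁻¹).mulVec x)) =
      (A τ).mulVec (π ((A τ⁻¹).mulVec x)) := by
    intro σ τ hστ x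
    have h1 : (A σ⁻¹).mulVec x = (A (σ⁻¹ * τ)).mulVec ((A τ⁻¹).mulVec x) := by
      rw [Matrix.mulVec_mulVec, ← map_mul]
      congr 2
      group
    rw [h1, hcomm _ hστ, Matrix.mulVec_mulVec, ← map_mul]
    congr 2
    group
  set P : (Fin N → K) →ₗ[K] (Fin N → K) :=
    (n : K)⁻¹ • ∑ q : Γ ⧸ H, Matrix.toLin' (A q.out) ∘ₗ π ∘ₗ Matrix.toLin' (A (q.out)⁻¹) with hP
  have hPapply : ∀ x, P x = (n : K)⁻¹ • ∑ q : Γ ⧸ H, (A q.out).mulVec (π ((A (q.out)⁻¹).mulVec x)) := by
    intro x
    rw [hP, LinearMap.smul_apply, LinearMap.sum_apply]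
    rfl
  have hPW : ∀ x, P x ∈ W := by
    intro x
    rw [hPapply]
    exact W.smul_mem _ (Submodule.sum_mem _ fun q _ => hAW _ _ (hπW _))
  have hPid : ∀ x ∈ W, P x = x := by
    intro x hx
    rw [hPapply]
    have h1 : ∀ q : Γ ⧸ H, (A q.out).mulVec (π ((A (q.out)⁻¹).mulVec x)) = x := by
      intro q
      rw [hπid _ (hAW _ _ hx), hinv]
    rw [Finset.sum_congr rfl fun q _ => h1 q, Finset.sum_const, Finset.card_univ, ← hn,
      ← Nat.cast_smul_eq_nsmul K, smul_smul, inv_mul_cancel₀ hn0, one_smul]
  have hPcomm : ∀ τ x, P ((A τ).mulVec x) = (A τ).mulVec (P x) := by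
    intro τ x
    rw [hPapply, hPapply, Matrix.mulVec_smul]
    congr 1
    rw [Matrix.mulVec_sum]
    have h1 : ∀ q : Γ ⧸ H, (A τ).mulVec ((A q.out).mulVec (π ((A (q.out)⁻¹).mulVec x))) =
        (A ((τ • q).out)).mulVec (π ((A ((τ • q).out)⁻¹).mulVec ((A τ).mulVec x))) := by
      intro q
      have h2 : (τ * q.out)⁻¹ * (τ • q).out ∈ H := by
        rw [← QuotientGroup.eq, QuotientGroup.out_eq']
        conv_rhs => rw [← QuotientGroup.out_eq' q]
        rfl
      rw [← hcos _ _ h2, Matrix.mulVec_mulVec, ← map_mul]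
      congr 2
      rw [Matrix.mulVec_mulVec, ← map_mul]
      congr 2
      group
    rw [Finset.sum_congr rfl fun q _ => h1 q]
    exact (Equiv.sum_comp (MulAction.toPerm τ) fun q : Γ ⧸ H =>
      (A q.out).mulVec (π ((A (q.out)⁻¹).mulVec ((A τ).mulVec x)))).symm
  refine ⟨LinearMap.ker P, ?_, ?_⟩
  · rintro _ ⟨σ, rfl⟩ x hx
    rw [LinearMap.mem_ker] at hx ⊢
    rw [hPcomm, hx, Matrix.mulVec_zero]
  · rw [isCompl_iff]
    constructor
    · rw [Submodule.disjoint_def]
      intro x hx hx'
      rw [LinearMap.mem_ker, hPid x hx] at hx'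
      exact hx'
    · rw [codisjoint_iff, eq_top_iff]
      intro x _
      have h1 : x = P x + (x - P x) := by abel
      rw [h1]
      refine Submodule.add_mem_sup (hPW x) ?_
      rw [LinearMap.mem_ker, map_sub, hPid _ (hPW x), sub_self]

/-- **The double centraliser theorem** -/
theorem double_centralizer {S : Set (Matrix (Fin N) (Fin N) K)} (h : CR S)
    {Y : Matrix (Fin N) (Fin N) K}
    (hY : ∀ X : Matrix (Fin N) (Fin N) K, (∀ A ∈ S, Commute A X) → Commute X Y) :
    Y ∈ Algebra.adjoin K S := by
  classical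
  set A := Algebra.adjoin K S with hA
  set AE : Subalgebra K (Module.End K (Fin N → K)) :=
    A.map (Matrix.toLinAlgEquiv' (R := K) (n := Fin N)).toAlgHom with hAE
  have hmem : ∀ X : Matrix (Fin N) (Fin N) K, X ∈ A → Matrix.toLin' X ∈ AE := fun X hX =>
    ⟨X, hX, rfl⟩
  have hss : IsSemisimpleModule AE (Fin N → K) := by
    refine @IsSemisimpleModule.mk _ _ _ _ _ ⟨fun W => ?_⟩
    obtain ⟨W', hW', hc⟩ := h (W.restrictScalars K) (by
      intro X hX x hx
      exact W.smul_mem (⟨Matrix.toLin' X, hmem X (Algebra.subset_adjoin hX)⟩ : AE) hx)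
    have hst := stable_adjoin hW'
    refine ⟨{ carrier := W'
              add_mem' := W'.add_mem
              zero_mem' := W'.zero_mem
              smul_mem' := fun a x hx => by
                obtain ⟨X, hX, hXa⟩ := a.2
                have h1 : a • x = X.mulVec x := by
                  change (a : Module.End K (Fin N → K)) x = X.mulVec x
                  rw [← hXa]
                  rfl
                rw [h1]
                exact hst X hX x hx }, ?_⟩
    rw [isCompl_iff] at hc ⊢
    constructor
    · rw [Submodule.disjoint_def]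
      intro x hx hx'
      exact (Submodule.disjoint_def.1 hc.1) x hx hx'
    · rw [codisjoint_iff, eq_top_iff]
      intro x _
      have h3 : x ∈ W.restrictScalars K ⊔ W' := by rw [codisjoint_iff.1 hc.2]; trivial
      obtain ⟨y, hy, z, hz, rfl⟩ := Submodule.mem_sup.1 h3
      exact Submodule.add_mem_sup hy hz
  let f : Module.End (Module.End AE (Fin N → K)) (Fin N → K) :=
    { toFun := Matrix.toLin' Y
      map_add' := map_add _
      map_smul' := by
        intro d x
        let d' : Module.End K (Fin N → K) :=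
          { toFun := d
            map_add' := map_add d
            map_smul' := by
              intro c x
              rw [RingHom.id_apply]
              have h1 : c • x = (algebraMap K AE c) • x := (algebraMap_smul AE c x).symm
              have h2 : c • d x = (algebraMap K AE c) • d x := (algebraMap_smul AE c (d x)).symm
              rw [h1, h2, map_smul] }
        obtain ⟨X, hX⟩ := Matrix.toLin'.surjective d'
        have hXd : ∀ y, X.mulVec y = d y := fun y => congrArg (fun g => g y) hX
        have h2 : Commute X Y := by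
          apply hY
          intro B hB
          apply Matrix.toLin'.injective
          apply LinearMap.ext
          intro y
          rw [Matrix.toLin'_mul, Matrix.toLin'_mul]
          change B.mulVec (X.mulVec y) = X.mulVec (B.mulVec y)
          rw [hXd, hXd]
          exact (map_smul d (⟨Matrix.toLin' B, hmem B (Algebra.subset_adjoin hB)⟩ : AE) y).symm
        change Y.mulVec (d x) = d (Y.mulVec x)
        rw [← hXd, ← hXd, Matrix.mulVec_mulVec, Matrix.mulVec_mulVec, h2.eq] }
  set b := Module.finBasis K (Fin N → K)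
  obtain ⟨e, he⟩ := jacobson_density (R := AE) (M := Fin N → K) f (Finset.univ.image b)
  have h2 : Matrix.toLin' Y = e.1 := by
    apply b.ext
    intro i
    exact he (b i) (Finset.mem_image_of_mem _ (Finset.mem_univ i))
  obtain ⟨X, hX, hXe⟩ := e.2
  have h3 : Matrix.toLin' Y = Matrix.toLin' X := by
    rw [h2, ← hXe]
    rfl
  rw [Matrix.toLin'.injective h3]
  exact hX

end Pool.Agent.H850.TF
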