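import Pool.Graph.R_pool_sql_team_seeded_f72693b1.W401.Cheb.Full

/-!
# Frobenius elements in cosets of open subgroups
-/

set_option autoImplicit false

namespace Pool.Agent.H850.TF

open NumberField Filter Topology IsDedekindDomain
open Pool.Agent.W401.Cheb Pool.Agent.W352.ChAbs

variable {K : Type} [Field K] [NumberField K]

/-- conjugates of Frobenius elements are Frobenius elements -/
theorem isFrob_conj {v : HeightOneSpectrum (𝓞 K)} {σ : GK K} (h : IsFrob v σ) (τ : GK K) :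
    IsFrob v (τ * σ * τ⁻¹) := by
  obtain ⟨Q, hQ, hQv, hσ⟩ := h
  let f : 𝓞 (AlgebraicClosure K) ≃+* 𝓞 (AlgebraicClosure K) :=
    MulSemiringAction.toRingEquiv (GK K) (𝓞 (AlgebraicClosure K)) τ⁻¹
  have hf : ∀ x, f x = τ⁻¹ • x := fun x => rfl
  refine ⟨Q.comap f, ?_, ?_, ?_⟩
  · exact Ideal.comap_isMaximal_of_surjective f f.surjective
  · rw [← hQv]
    ext a
    simp only [Ideal.mem_comap]
    rw [hf, smul_algebraMap]
  · intro x
    rw [Ideal.mem_comap, map_sub, map_pow, hf, hf]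
    have h1 : τ⁻¹ • ((τ * σ * τ⁻¹) • x) = σ • (τ⁻¹ • x) := by
      rw [← mul_smul, ← mul_smul]
      congr 1
      group
    rw [h1]
    exact hσ _

/-- **Frobenius elements in a coset have positive density.** -/
theorem coset_density (U : Subgroup (GK K)) [U.Normal] (hU : IsOpen (U : Set (GK K)))
    (σ₀ : GK K) : ∃ δ : ℝ, 0 < δ ∧
      Tendsto (dens fun v : HeightOneSpectrum (𝓞 K) => ∃ u ∈ U, IsFrob v (σ₀ * u)) atTop (𝓝 δ) := by
  classical
  set C : Set (GK K) := {σ | ∃ τ : GK K, ∃ u ∈ U, σ = τ * (σ₀ * u) * τ⁻¹} with hC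
  have h1 : ∀ σ ∈ C, ∀ τ : GK K, τ * σ * τ⁻¹ ∈ C := by
    rintro _ ⟨τ, u, hu, rfl⟩ τ'
    exact ⟨τ' * τ, u, hu, by group⟩
  have h2 : ∀ σ ∈ C, ∀ u ∈ U, σ * u ∈ C := by
    rintro _ ⟨τ, u, hu, rfl⟩ u' hu'
    refine ⟨τ, u * (τ⁻¹ * u' * τ), U.mul_mem hu ?_, by group⟩
    have := (inferInstance : U.Normal).conj_mem u' hu' τ⁻¹
    rwa [inv_inv] at this
  have h3 := chebK K U hU C h1 h2
  have h4 : (fun v : HeightOneSpectrum (𝓞 K) => ∃ σ ∈ C, IsFrob v σ) =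
      fun v : HeightOneSpectrum (𝓞 K) => ∃ u ∈ U, IsFrob v (σ₀ * u) := by
    funext v
    apply propext
    constructor
    · rintro ⟨_, ⟨τ, u, hu, rfl⟩, h⟩
      refine ⟨u, hu, ?_⟩
      have := isFrob_conj h τ⁻¹
      have h5 : τ⁻¹ * (τ * (σ₀ * u) * τ⁻¹) * τ⁻¹⁻¹ = σ₀ * u := by group
      rwa [h5] at this
    · rintro ⟨u, hu, h⟩
      exact ⟨σ₀ * u, ⟨1, u, hu, by group⟩, h⟩
  rw [h4] at h3
  refine ⟨_, ?_, h3⟩
  haveI : Finite (GK K ⧸ U) := Subgroup.quotient_finite_of_isOpen U hU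
  have h5 : (0 : ℝ) < Nat.card (GK K ⧸ U) := by exact_mod_cast Nat.card_pos
  have h6 : 0 < ((QuotientGroup.mk : GK K → GK K ⧸ U) '' C).ncard := by
    rw [Set.ncard_pos (Set.toFinite _)]
    exact ⟨QuotientGroup.mk σ₀, σ₀, ⟨1, 1, U.one_mem, by group⟩, rfl⟩
  have h7 : (0 : ℝ) < ((QuotientGroup.mk : GK K → GK K ⧸ U) '' C).ncard := by exact_mod_cast h6
  positivity

end Pool.Agent.H850.TF
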