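import Pool.Agent.H850.TF.Main

/-!
# Clifford's theorem: restriction of a semisimple representation to a normal subgroup
-/

set_option autoImplicit false
set_option linter.unusedSectionVars false

namespace Pool.Agent.H850.TF

variable {N : ℕ} {K : Type} [Field K] {Γ : Type} [Group Γ]

section
variable (A : Γ →* Matrix (Fin N) (Fin N) K) (H : Subgroup Γ)

/-- the algebra generated by the operators of `H` -/
noncomputable def algH : Subalgebra K (Module.End K (Fin N → K)) :=
  (Algebra.adjoin K (A '' (H : Set Γ))).map (Matrix.toLinAlgEquiv' (R := K) (n := Fin N)).toAlgHom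

theorem mem_algH {X : Matrix (Fin N) (Fin N) K} (hX : X ∈ A '' (H : Set Γ)) :
    Matrix.toLin' X ∈ algH A H := ⟨X, Algebra.subset_adjoin hX, rfl⟩

/-- a subspace stable under `H` as a submodule -/
def mkSub (W : Submodule K (Fin N → K)) (hW : ∀ X ∈ A '' (H : Set Γ), ∀ x ∈ W, X.mulVec x ∈ W) :
    Submodule (algH A H) (Fin N → K) :=
  { carrier := W
    add_mem' := W.add_mem
    zero_mem' := W.zero_mem
    smul_mem' := by
      rintro ⟨_, X, hX, rfl⟩ x hx
      exact stable_adjoin hW X hX x hx }

theorem mem_mkSub (W : Submodule K (Fin N → K))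
    (hW : ∀ X ∈ A '' (H : Set Γ), ∀ x ∈ W, X.mulVec x ∈ W) (x : Fin N → K) :
    x ∈ mkSub A H W hW ↔ x ∈ W := Iff.rfl

theorem sub_stable (W : Submodule (algH A H) (Fin N → K)) :
    ∀ X ∈ A '' (H : Set Γ), ∀ x ∈ W, X.mulVec x ∈ W := by
  intro X hX x hx
  exact W.smul_mem (⟨Matrix.toLin' X, mem_algH A H hX⟩ : algH A H) hx

/-- translate of a submodule by an element of the group -/
def transl [H.Normal] (σ : Γ) (W : Submodule (algH A H) (Fin N → K)) :
    Submodule (algH A H) (Fin N → K) :=
  mkSub A H
    { carrier := {x | (A σ).mulVec x ∈ W}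
      add_mem' := by
        intro x y hx hy
        change (A σ).mulVec (x + y) ∈ W
        rw [Matrix.mulVec_add]
        exact W.add_mem hx hy
      zero_mem' := by
        change (A σ).mulVec 0 ∈ W
        rw [Matrix.mulVec_zero]
        exact W.zero_mem
      smul_mem' := by
        intro c x hx
        change (A σ).mulVec (c • x) ∈ W
        rw [Matrix.mulVec_smul]
        exact (W.restrictScalars K).smul_mem c hx } (by
    rintro _ ⟨τ, hτ, rfl⟩ x hx
    change (A σ).mulVec ((A τ).mulVec x) ∈ W
    have h1 : (A σ).mulVec ((A τ).mulVec x) = (A (σ * τ * σ⁻¹)).mulVec ((A σ).mulVec x) := by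
      rw [Matrix.mulVec_mulVec, Matrix.mulVec_mulVec, ← map_mul, ← map_mul]
      congr 2
      group
    rw [h1]
    exact sub_stable A H W _ ⟨_, (inferInstance : H.Normal).conj_mem τ hτ σ, rfl⟩ _ hx)

theorem mem_transl [H.Normal] (σ : Γ) (W : Submodule (algH A H) (Fin N → K)) (x : Fin N → K) :
    x ∈ transl A H σ W ↔ (A σ).mulVec x ∈ W := Iff.rfl

theorem mulVec_inv (σ : Γ) (x : Fin N → K) : (A σ).mulVec ((A σ⁻¹).mulVec x) = x := by
  rw [Matrix.mulVec_mulVec, ← map_mul, mul_inv_cancel, map_one, Matrix.one_mulVec]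

theorem mulVec_inv' (σ : Γ) (x : Fin N → K) : (A σ⁻¹).mulVec ((A σ).mulVec x) = x := by
  rw [Matrix.mulVec_mulVec, ← map_mul, inv_mul_cancel, map_one, Matrix.one_mulVec]

/-- translation is an automorphism of the lattice of submodules -/
def translIso [H.Normal] (σ : Γ) :
    Submodule (algH A H) (Fin N → K) ≃o Submodule (algH A H) (Fin N → K) where
  toFun := transl A H σ
  invFun := transl A H σ⁻¹
  left_inv W := by
    ext x
    rw [mem_transl, mem_transl, mulVec_inv]
  right_inv W := by
    ext x
    rw [mem_transl, mem_transl, mulVec_inv']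
  map_rel_iff' := by
    intro W W'
    constructor
    · intro h x hx
      have h1 : (A σ⁻¹).mulVec x ∈ transl A H σ W := by
        rw [mem_transl, mulVec_inv]
        exact hx
      have h2 := h h1
      have h3 : (A σ⁻¹).mulVec x ∈ transl A H σ W' := h2
      rwa [mem_transl, mulVec_inv] at h3
    · intro h x hx
      exact h hx

end

/-- **Clifford's theorem.** -/
theorem clifford (A : Γ →* Matrix (Fin N) (Fin N) K) (H : Subgroup Γ) [H.Normal]
    (hA : CR (Set.range A)) : CR (A '' (H : Set Γ)) := by
  classical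
  set S : Submodule (algH A H) (Fin N → K) := sSup {m | IsAtom m} with hS
  have hinv : ∀ σ : Γ, transl A H σ S = S := by
    intro σ
    have h0 : (translIso A H σ) '' {m | IsAtom m} = {m | IsAtom m} := by
      ext m
      constructor
      · rintro ⟨m', hm', rfl⟩
        exact (OrderIso.isAtom_iff (translIso A H σ) m').2 hm'
      · intro hm
        exact ⟨(translIso A H σ).symm m, (OrderIso.isAtom_iff (translIso A H σ).symm m).2 hm,
          OrderIso.apply_symm_apply _ _⟩
    have h1 : translIso A H σ S = S := by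
      rw [hS]
      conv_rhs => rw [← h0]
      rw [sSup_image]
      exact OrderIso.map_sSup _ _
    exact h1
  obtain ⟨S', hS', hc⟩ := hA (S.restrictScalars K) (by
    rintro _ ⟨σ, rfl⟩ x hx
    have h1 : x ∈ transl A H σ S := by
      rw [hinv]
      exact hx
    exact h1)
  have hS'H : ∀ X ∈ A '' (H : Set Γ), ∀ x ∈ S', X.mulVec x ∈ S' := by
    rintro _ ⟨σ, -, rfl⟩ x hx
    exact hS' _ ⟨σ, rfl⟩ x hx
  have hart : IsArtinian (algH A H) (Fin N → K) := by
    have : IsArtinian K (Fin N → K) := inferInstance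
    exact isArtinian_of_tower K this
  have hbot : mkSub A H S' hS'H = ⊥ := by
    by_contra hne
    obtain ⟨a, ha, hle⟩ := (eq_bot_or_exists_atom_le (mkSub A H S' hS'H)).resolve_left hne
    have h1 : a ≤ S := le_sSup ha
    apply ha.1
    rw [eq_bot_iff]
    intro x hx
    have h2 : x ∈ S.restrictScalars K := h1 hx
    have h3 : x ∈ S' := hle hx
    exact (Submodule.disjoint_def.1 hc.disjoint) x h2 h3
  have htop : S = ⊤ := by
    rw [eq_top_iff]
    intro x _
    have h1 : x ∈ S.restrictScalars K ⊔ S' := by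
      rw [codisjoint_iff.1 hc.codisjoint]
      trivial
    obtain ⟨y, hy, z, hz, rfl⟩ := Submodule.mem_sup.1 h1
    have h2 : z ∈ mkSub A H S' hS'H := hz
    rw [hbot, Submodule.mem_bot] at h2
    rw [h2, add_zero]
    exact hy
  have hss : IsSemisimpleModule (algH A H) (Fin N → K) := by
    apply IsSemisimpleModule.of_sSup_simples_eq_top
    simp_rw [isSimpleModule_iff_isAtom]
    exact htop
  have hcl : ComplementedLattice (Submodule (algH A H) (Fin N → K)) := hss.toComplementedLattice
  intro W hW
  obtain ⟨W', hW'⟩ := hcl.exists_isCompl (mkSub A H W hW)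
  refine ⟨W'.restrictScalars K, sub_stable A H W', ?_⟩
  rw [isCompl_iff] at hW' ⊢
  constructor
  · rw [Submodule.disjoint_def]
    intro x hx hx'
    exact (Submodule.disjoint_def.1 hW'.1) x hx hx'
  · rw [codisjoint_iff, eq_top_iff]
    intro x _
    have h3 : x ∈ mkSub A H W hW ⊔ W' := by rw [codisjoint_iff.1 hW'.2]; trivial
    obtain ⟨y, hy, z, hz, rfl⟩ := Submodule.mem_sup.1 h3
    exact Submodule.add_mem_sup hy hz

end Pool.Agent.H850.TF
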