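import Pool.Agent.H850.TF.Main2
import Pool.Agent.H850.TF.Clifford
import Mathlib.Topology.Algebra.ClopenNhdofOne

/-!
# Two cosets generate the algebra of a semisimple `p`-adic representation
-/

set_option autoImplicit false
set_option linter.unusedSectionVars false

namespace Pool.Agent.H850.TF

open Filter Topology

variable {N : ℕ} {p : ℕ} [Fact p.Prime] {Γ : Type} [Group Γ]

/-- the operators on `V = T ⊗ ℚ_p` -/
noncomputable def rat (ρ : Γ →* GL (Fin N) ℤ_[p]) : Γ →* Matrix (Fin N) (Fin N) ℚ_[p] where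
  toFun σ := toQ (ρ σ : Matrix (Fin N) (Fin N) ℤ_[p])
  map_one' := by rw [map_one, Units.val_one, map_one]
  map_mul' σ τ := by rw [map_mul, Units.val_mul, map_mul]

theorem rat_apply (ρ : Γ →* GL (Fin N) ℤ_[p]) (σ : Γ) :
    rat ρ σ = toQ (ρ σ : Matrix (Fin N) (Fin N) ℤ_[p]) := rfl

/-- the elements acting trivially modulo `p ^ 2` -/
def U1 (ρ : Γ →* GL (Fin N) ℤ_[p]) : Subgroup Γ where
  carrier := {σ | ∃ a : Matrix (Fin N) (Fin N) ℤ_[p],
    (ρ σ : Matrix (Fin N) (Fin N) ℤ_[p]) = 1 + (p : ℤ_[p]) ^ 2 • a}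
  one_mem' := ⟨0, by rw [map_one, Units.val_one, smul_zero, add_zero]⟩
  mul_mem' := by
    rintro σ τ ⟨a, ha⟩ ⟨b, hb⟩
    refine ⟨a + b + (p : ℤ_[p]) ^ 2 • (a * b), ?_⟩
    rw [map_mul, Units.val_mul, ha, hb]
    simp only [mul_add, add_mul, one_mul, mul_one, smul_add, smul_mul_assoc, mul_smul_comm]
    abel
  inv_mem' := by
    rintro σ ⟨a, ha⟩
    refine ⟨-(((ρ σ⁻¹ : GL (Fin N) ℤ_[p]) : Matrix (Fin N) (Fin N) ℤ_[p]) * a), ?_⟩
    have h1 : ((ρ σ⁻¹ : GL (Fin N) ℤ_[p]) : Matrix (Fin N) (Fin N) ℤ_[p]) *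
        (ρ σ : Matrix (Fin N) (Fin N) ℤ_[p]) = 1 := by
      rw [← Units.val_mul, ← map_mul, inv_mul_cancel, map_one, Units.val_one]
    rw [ha, mul_add, mul_one, mul_smul_comm] at h1
    rw [smul_neg, ← sub_eq_add_neg, eq_sub_iff_add_eq]
    exact h1

theorem mem_U1 (ρ : Γ →* GL (Fin N) ℤ_[p]) (σ : Γ) : σ ∈ U1 ρ ↔
    ∃ a : Matrix (Fin N) (Fin N) ℤ_[p],
      (ρ σ : Matrix (Fin N) (Fin N) ℤ_[p]) = 1 + (p : ℤ_[p]) ^ 2 • a := Iff.rfl

instance (ρ : Γ →* GL (Fin N) ℤ_[p]) : (U1 ρ).Normal where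
  conj_mem := by
    rintro σ ⟨a, ha⟩ τ
    refine ⟨(ρ τ : Matrix (Fin N) (Fin N) ℤ_[p]) * a *
      ((ρ τ⁻¹ : GL (Fin N) ℤ_[p]) : Matrix (Fin N) (Fin N) ℤ_[p]), ?_⟩
    have h1 : (ρ τ : Matrix (Fin N) (Fin N) ℤ_[p]) *
        ((ρ τ⁻¹ : GL (Fin N) ℤ_[p]) : Matrix (Fin N) (Fin N) ℤ_[p]) = 1 := by
      rw [← Units.val_mul, ← map_mul, mul_inv_cancel, map_one, Units.val_one]
    rw [map_mul, map_mul, Units.val_mul, Units.val_mul, ha, mul_add, mul_one, add_mul, h1,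
      mul_smul_comm, smul_mul_assoc]

/-- the integral image of a subgroup -/
def imag (ρ : Γ →* GL (Fin N) ℤ_[p]) (H : Subgroup Γ) : Set (Matrix (Fin N) (Fin N) ℤ_[p]) :=
  {g | ∃ σ ∈ H, (ρ σ : Matrix (Fin N) (Fin N) ℤ_[p]) = g}

theorem small_imag (ρ : Γ →* GL (Fin N) ℤ_[p]) (H : Subgroup Γ) (hH : H ≤ U1 ρ) :
    Small (imag ρ H) where
  one := ⟨1, H.one_mem, by rw [map_one, Units.val_one]⟩
  mul := by
    rintro _ ⟨σ, hσ, rfl⟩ _ ⟨τ, hτ, rfl⟩
    exact ⟨σ * τ, H.mul_mem hσ hτ, by rw [map_mul, Units.val_mul]⟩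
  inv := by
    rintro _ ⟨σ, hσ, rfl⟩
    refine ⟨_, ⟨σ⁻¹, H.inv_mem hσ, rfl⟩, ?_⟩
    rw [← Units.val_mul, ← map_mul, mul_inv_cancel, map_one, Units.val_one]
  small := by
    rintro _ ⟨σ, hσ, rfl⟩
    exact hH hσ

theorem toQ_imag (ρ : Γ →* GL (Fin N) ℤ_[p]) (H : Subgroup Γ) :
    toQ '' imag ρ H = rat ρ '' (H : Set Γ) := by
  ext X
  constructor
  · rintro ⟨_, ⟨σ, hσ, rfl⟩, rfl⟩
    exact ⟨σ, hσ, rfl⟩
  · rintro ⟨σ, hσ, rfl⟩
    exact ⟨_, ⟨σ, hσ, rfl⟩, rfl⟩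

/-- a small element lies in the algebra generated by any of its powers -/
theorem mem_adjoin_pow (ρ : Γ →* GL (Fin N) ℤ_[p]) {σ : Γ} (hσ : σ ∈ U1 ρ) {k : ℕ} (hk : k ≠ 0) :
    rat ρ σ ∈ Algebra.adjoin ℚ_[p] {rat ρ (σ ^ k)} := by
  have hG := small_imag ρ (U1 ρ) le_rfl
  obtain ⟨X, hX, -, h2⟩ := hG.exists_log (g := (ρ σ : Matrix (Fin N) (Fin N) ℤ_[p])) ⟨σ, hσ, rfl⟩
  have hpow := hX.pow k
  have hmem : (ρ σ : Matrix (Fin N) (Fin N) ℤ_[p]) ^ k ∈ imag ρ (U1 ρ) :=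
    ⟨σ ^ k, (U1 ρ).pow_mem hσ k, by rw [map_pow, Units.val_pow_eq_pow_val]⟩
  have h3 := (hG.log_adjoin hmem hpow).1
  have h4 : toQ X ∈ Algebra.adjoin ℚ_[p] {rat ρ (σ ^ k)} := by
    have h5 : toQ ((ρ σ : Matrix (Fin N) (Fin N) ℤ_[p]) ^ k) = rat ρ (σ ^ k) := by
      rw [rat_apply, map_pow ρ, Units.val_pow_eq_pow_val]
    rw [h5] at h3
    have hk0 : (k : ℚ_[p]) ≠ 0 := by exact_mod_cast hk
    have h6 : toQ X = (k : ℚ_[p])⁻¹ • ((k : ℚ_[p]) • toQ X) := by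
      rw [smul_smul, inv_mul_cancel₀ hk0, one_smul]
    rw [h6]
    refine Subalgebra.smul_mem _ ?_ _
    convert h3 using 1
    rw [toQ_smul]
    simp
  have h7 : Algebra.adjoin ℚ_[p] {toQ X} ≤ Algebra.adjoin ℚ_[p] {rat ρ (σ ^ k)} := by
    apply Algebra.adjoin_le
    intro Y hY
    rw [Set.mem_singleton_iff] at hY
    rw [hY]
    exact h4
  exact h7 h2

theorem commute_of_adjoin {S : Set (Matrix (Fin N) (Fin N) ℚ_[p])}
    {X : Matrix (Fin N) (Fin N) ℚ_[p]} (hX : ∀ A ∈ S, Commute A X)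
    {Y : Matrix (Fin N) (Fin N) ℚ_[p]} (hY : Y ∈ Algebra.adjoin ℚ_[p] S) : Commute Y X := by
  have h1 : Y ∈ Algebra.adjoin ℚ_[p] S → Y ∈ Subalgebra.centralizer ℚ_[p] {X} := by
    intro h
    have : Algebra.adjoin ℚ_[p] S ≤ Subalgebra.centralizer ℚ_[p] {X} := by
      apply Algebra.adjoin_le
      intro A hA
      rw [SetLike.mem_coe, Subalgebra.mem_centralizer_iff]
      intro Z hZ
      rw [Set.mem_singleton_iff] at hZ
      rw [hZ]
      exact (hX A hA).eq.symm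
    exact this h
  have h2 := Subalgebra.mem_centralizer_iff ℚ_[p] |>.1 (h1 hY) X rfl
  exact h2.symm

variable [TopologicalSpace Γ] [IsTopologicalGroup Γ]

theorem isOpen_U1 (ρ : Γ →* GL (Fin N) ℤ_[p])
    (hρ : Continuous fun σ => (ρ σ : Matrix (Fin N) (Fin N) ℤ_[p])) :
    IsOpen (U1 ρ : Set Γ) := by
  have hp0 : (p : ℤ_[p]) ≠ 0 := by
    exact_mod_cast (Fact.out : p.Prime).ne_zero
  have h1 : (U1 ρ : Set Γ) = ⋂ i : Fin N, ⋂ j : Fin N,
      {σ | (ρ σ : Matrix (Fin N) (Fin N) ℤ_[p]) i j - (1 : Matrix (Fin N) (Fin N) ℤ_[p]) i j ∈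
        Metric.closedBall (0 : ℤ_[p]) ((p : ℝ) ^ (-(2 : ℕ) : ℤ))} := by
    ext σ
    simp only [SetLike.mem_coe, Set.mem_iInter]
    constructor
    · rintro ⟨a, ha⟩ i j
      change _ ∈ Metric.closedBall _ _
      rw [mem_closedBall_zero_iff, PadicInt.norm_le_pow_iff_mem_span_pow,
        Ideal.mem_span_singleton]
      refine ⟨a i j, ?_⟩
      rw [ha]
      simp
    · intro h
      have h2 : ∀ i j, ∃ c : ℤ_[p], (ρ σ : Matrix (Fin N) (Fin N) ℤ_[p]) i j -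
          (1 : Matrix (Fin N) (Fin N) ℤ_[p]) i j = (p : ℤ_[p]) ^ 2 * c := by
        intro i j
        have h3 := h i j
        change _ ∈ Metric.closedBall _ _ at h3
        rw [mem_closedBall_zero_iff, PadicInt.norm_le_pow_iff_mem_span_pow,
          Ideal.mem_span_singleton] at h3
        exact h3
      choose c hc using h2
      refine ⟨Matrix.of c, ?_⟩
      ext i j
      have := hc i j
      rw [sub_eq_iff_eq_add'] at this
      rw [this]
      simp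
  rw [h1]
  refine isOpen_iInter_of_finite fun i => isOpen_iInter_of_finite fun j => ?_
  have hcont : Continuous fun σ : Γ => (ρ σ : Matrix (Fin N) (Fin N) ℤ_[p]) i j -
      (1 : Matrix (Fin N) (Fin N) ℤ_[p]) i j :=
    (hρ.matrix_elem i j).sub continuous_const
  exact (IsUltrametricDist.isOpen_closedBall _ (by
    have : (0 : ℝ) < p := by exact_mod_cast (Fact.out : p.Prime).pos
    positivity)).preimage hcont

theorem continuous_wd {X : Type*} [TopologicalSpace X] (f g : X → Matrix (Fin N) (Fin N) ℚ_[p])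
    (hf : Continuous f) (hg : Continuous g) (l : List (Fin 2)) :
    Continuous fun x => wd (f x) (g x) l := by
  induction l with
  | nil =>
    have : (fun x => wd (f x) (g x) []) = fun _ => 1 := by
      funext x
      simp [wd]
    rw [this]
    exact continuous_const
  | cons a l ih =>
    have : (fun x => wd (f x) (g x) (a :: l)) =
        fun x => (if a = 0 then f x else g x) * wd (f x) (g x) l := by
      funext x
      simp [wd]
    rw [this]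
    refine Continuous.mul ?_ ih
    split_ifs
    · exact hf
    · exact hg

theorem continuous_minor {X : Type*} [TopologicalSpace X]
    (f g : X → Matrix (Fin N) (Fin N) ℚ_[p])
    (hf : Continuous f) (hg : Continuous g) {D : ℕ} (w : Fin D → List (Fin 2))
    (e : Fin D → Fin N × Fin N) : Continuous fun x => minor w e (f x) (g x) := by
  unfold minor
  refine Continuous.matrix_det (continuous_matrix fun i j => ?_)
  exact (continuous_wd f g hf hg (w i)).matrix_elem _ _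

/-- **Two cosets.** For a semisimple representation of a profinite group there are elements
`σ₀, τ₀` and an open normal subgroup `U` such that the endomorphisms commuting with any element of
`σ₀ U` and any element of `τ₀ U` are precisely those which commute with an open subgroup. -/
theorem two_cosets [CompactSpace Γ] [TotallyDisconnectedSpace Γ]
    (ρ : Γ →* GL (Fin N) ℤ_[p])
    (hρ : Continuous fun σ => (ρ σ : Matrix (Fin N) (Fin N) ℤ_[p]))
    (hss : CR (Set.range (rat ρ))) :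
    ∃ (U : Subgroup Γ) (σ₀ τ₀ : Γ), U.Normal ∧ IsOpen (U : Set Γ) ∧
      (∀ u ∈ U, σ₀ * u ∈ U1 ρ) ∧ (∀ u ∈ U, τ₀ * u ∈ U1 ρ) ∧
      ∀ u ∈ U, ∀ u' ∈ U, ∀ σ ∈ U1 ρ,
        rat ρ σ ∈ Algebra.adjoin ℚ_[p] {rat ρ (σ₀ * u), rat ρ (τ₀ * u')} := by
  classical
  have hG := small_imag ρ (U1 ρ) le_rfl
  have hCR : CR (toQ '' imag ρ (U1 ρ)) := by
    rw [toQ_imag]
    exact clifford (rat ρ) (U1 ρ) hss
  obtain ⟨_, ⟨σ₀, hσ₀, rfl⟩, _, ⟨τ₀, hτ₀, rfl⟩, hgen⟩ := two_elements hG hCR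
  set A := Algebra.adjoin ℚ_[p] (rat ρ '' (U1 ρ : Set Γ)) with hA
  have hA0 : A = Algebra.adjoin ℚ_[p] {rat ρ σ₀, rat ρ τ₀} := by
    apply le_antisymm
    · apply Algebra.adjoin_le
      rintro _ ⟨σ, hσ, rfl⟩
      exact hgen _ ⟨σ, hσ, rfl⟩
    · apply Algebra.adjoin_mono
      intro X hX
      rcases hX with rfl | hX
      · exact ⟨σ₀, hσ₀, rfl⟩
      · rw [Set.mem_singleton_iff] at hX
        rw [hX]
        exact ⟨τ₀, hτ₀, rfl⟩
  set D := Module.finrank ℚ_[p] (Subalgebra.toSubmodule A) with hD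
  obtain ⟨w, e, hwe⟩ := exists_minor (rat ρ σ₀) (rat ρ τ₀) D (by
    rw [← adjoin_pair_eq_span, ← hA0])
  have hcr : Continuous fun σ : Γ => rat ρ σ := continuous_toQ.comp hρ
  have hcm : Continuous fun x : Γ × Γ => minor w e (rat ρ (σ₀ * x.1)) (rat ρ (τ₀ * x.2)) :=
    continuous_minor _ _ (hcr.comp (continuous_const.mul continuous_fst))
      (hcr.comp (continuous_const.mul continuous_snd)) w e
  have hopen : IsOpen {x : Γ × Γ | minor w e (rat ρ (σ₀ * x.1)) (rat ρ (τ₀ * x.2)) ≠ 0} :=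
    isOpen_ne_fun hcm continuous_const
  have h11 : ((1 : Γ), (1 : Γ)) ∈
      {x : Γ × Γ | minor w e (rat ρ (σ₀ * x.1)) (rat ρ (τ₀ * x.2)) ≠ 0} := by
    change minor w e (rat ρ (σ₀ * 1)) (rat ρ (τ₀ * 1)) ≠ 0
    rw [mul_one, mul_one]
    exact hwe
  obtain ⟨V1, V2, hV1, hV2, h1V1, h1V2, hsub⟩ := isOpen_prod_iff.1 hopen 1 1 h11
  obtain ⟨U, hU⟩ := ProfiniteGrp.exist_openNormalSubgroup_sub_open_nhds_of_one
    (U := V1 ∩ V2 ∩ (U1 ρ : Set Γ)) ((hV1.inter hV2).inter (isOpen_U1 ρ hρ))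
    ⟨⟨h1V1, h1V2⟩, (U1 ρ).one_mem⟩
  refine ⟨U.toSubgroup, σ₀, τ₀, U.isNormal', U.isOpen', ?_, ?_, ?_⟩
  · intro u hu
    exact (U1 ρ).mul_mem hσ₀ (hU hu).2
  · intro u hu
    exact (U1 ρ).mul_mem hτ₀ (hU hu).2
  · intro u hu u' hu' σ hσ
    have hm : minor w e (rat ρ (σ₀ * u)) (rat ρ (τ₀ * u')) ≠ 0 :=
      hsub (Set.mk_mem_prod (hU hu).1.1 (hU hu').1.2)
    have h2 := le_finrank_of_minor _ _ w e hm
    have h3 : Algebra.adjoin ℚ_[p] {rat ρ (σ₀ * u), rat ρ (τ₀ * u')} ≤ A := by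
      apply Algebra.adjoin_mono
      intro X hX
      rcases hX with rfl | hX
      · exact ⟨_, (U1 ρ).mul_mem hσ₀ (hU hu).2, rfl⟩
      · rw [Set.mem_singleton_iff] at hX
        rw [hX]
        exact ⟨_, (U1 ρ).mul_mem hτ₀ (hU hu').2, rfl⟩
    have h4 : Subalgebra.toSubmodule (Algebra.adjoin ℚ_[p] {rat ρ (σ₀ * u), rat ρ (τ₀ * u')}) =
        Subalgebra.toSubmodule A :=
      Submodule.eq_of_le_of_finrank_le h3 h2
    rw [← Subalgebra.mem_toSubmodule, h4]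
    exact Algebra.subset_adjoin ⟨σ, hσ, rfl⟩

/-- an endomorphism commuting with an open subgroup commutes with the elements acting trivially
modulo `p ^ 2` -/
theorem commute_of_open [CompactSpace Γ] (ρ : Γ →* GL (Fin N) ℤ_[p])
    (U : Subgroup Γ) (hU : IsOpen (U : Set Γ))
    {X : Matrix (Fin N) (Fin N) ℚ_[p]} (hX : ∀ σ ∈ U, Commute (rat ρ σ) X)
    {σ : Γ} (hσ : σ ∈ U1 ρ) : Commute (rat ρ σ) X := by
  have hfin : Finite (Γ ⧸ U) := Subgroup.quotient_finite_of_isOpen U hU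
  have hidx : U.index ≠ 0 := by
    have : U.FiniteIndex := Subgroup.finiteIndex_of_finite_quotient
    exact this.index_ne_zero
  obtain ⟨k, hk, -, hmem⟩ := Subgroup.exists_pow_mem_of_index_ne_zero hidx σ
  exact commute_of_adjoin (S := {rat ρ (σ ^ k)}) (by
    intro A hA
    rw [Set.mem_singleton_iff] at hA
    rw [hA]
    exact hX _ hmem) (mem_adjoin_pow ρ hσ (by omega))

end Pool.Agent.H850.TF
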