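import Mathlib

/-!
# Base change of semisimple matrix algebras in characteristic zero
-/

set_option autoImplicit false
set_option linter.unusedSectionVars false

namespace Pool.Agent.H850.TF

section Trace

variable {K : Type} [Field K] [CharZero K] {V : Type} [AddCommGroup V] [Module K V]
  [FiniteDimensional K V]

theorem semisimpleRing_of_module (A : Subalgebra K (Module.End K V)) [IsSemisimpleModule A V] :
    IsSemisimpleRing A := by
  let b := Module.finBasis K V
  let f : A →ₗ[A] (Fin (Module.finrank K V) → V) :=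
    { toFun := fun a i => a • b i
      map_add' := fun a a' => by
        funext i
        exact add_smul a a' (b i)
      map_smul' := fun a a' => by
        funext i
        exact mul_smul a a' (b i) }
  have hf : Function.Injective f := by
    intro a a' h
    apply Subtype.ext
    apply b.ext
    intro i
    exact congrFun h i
  exact IsSemisimpleModule.of_injective f hf

/-- the trace form is nondegenerate -/
theorem trace_nondeg (A : Subalgebra K (Module.End K V)) [IsSemisimpleModule A V]
    (a : Module.End K V) (ha : a ∈ A) (h : ∀ b ∈ A, LinearMap.trace K V (a * b) = 0) : a = 0 := by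
  have := semisimpleRing_of_module A
  let I : Submodule A A :=
    { carrier := {x | ∀ b : A, LinearMap.trace K V ((x : Module.End K V) * b) = 0}
      add_mem' := by
        intro x y hx hy b
        have h1 := hx b
        have h2 := hy b
        change LinearMap.trace K V (((x : Module.End K V) + y) * b) = 0
        rw [add_mul, map_add, h1, h2, add_zero]
      zero_mem' := by
        intro b
        change LinearMap.trace K V ((0 : Module.End K V) * b) = 0
        rw [zero_mul, map_zero]
      smul_mem' := by
        intro c x hx b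
        change LinearMap.trace K V (((c : Module.End K V) * x) * b) = 0
        rw [mul_assoc, LinearMap.trace_mul_comm, mul_assoc]
        exact hx (b * c) }
  obtain ⟨I', hI'⟩ := exists_isCompl I
  have h1 : (1 : A) ∈ I ⊔ I' := by rw [hI'.sup_eq_top]; trivial
  obtain ⟨e, he, e', he', hee⟩ := Submodule.mem_sup.1 h1
  have hzero : ∀ x ∈ I, x * e' = 0 := by
    intro x hx
    have h2 : x * e' ∈ I' := I'.smul_mem x he'
    have h3 : x * e' = x - x * e := by
      rw [eq_sub_iff_add_eq, ← mul_add, add_comm e', hee, mul_one]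
    have h4 : x * e' ∈ I := by
      rw [h3]
      exact I.sub_mem hx (I.smul_mem x he)
    have h5 : x * e' ∈ I ⊓ I' := ⟨h4, h2⟩
    rw [hI'.inf_eq_bot] at h5
    simpa using h5
  have hxe : ∀ x ∈ I, x = x * e := by
    intro x hx
    have h2 : x * (e + e') = x := by rw [hee, mul_one]
    rw [mul_add, hzero x hx, add_zero] at h2
    exact h2.symm
  have hid : IsIdempotentElem (e : Module.End K V) := by
    have h2 := hxe e he
    exact (congrArg Subtype.val h2).symm
  have htr : LinearMap.trace K V (e : Module.End K V) = 0 := by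
    have h2 := he 1
    simpa using h2
  have he0 : (e : Module.End K V) = 0 :=
    LinearMap.IsIdempotentElem.eq_zero_of_trace_eq_zero hid htr
  have he0' : e = 0 := Subtype.ext he0
  have h2 := hxe ⟨a, ha⟩ (fun b => h b b.2)
  rw [he0', mul_zero] at h2
  exact congrArg Subtype.val h2

end Trace

section BC

variable {K F : Type} [Field K] [CharZero K] [Field F] [Algebra K F] {N : ℕ}

/-- base change of matrices -/
noncomputable def bc : Matrix (Fin N) (Fin N) K →+* Matrix (Fin N) (Fin N) F :=
  (algebraMap K F).mapMatrix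

theorem bc_apply (X : Matrix (Fin N) (Fin N) K) (i j : Fin N) :
    (bc X : Matrix (Fin N) (Fin N) F) i j = algebraMap K F (X i j) := rfl

theorem bc_smul (c : K) (X : Matrix (Fin N) (Fin N) K) :
    (bc (c • X) : Matrix (Fin N) (Fin N) F) = algebraMap K F c • bc X := by
  ext i j
  simp [bc_apply]

theorem trace_bc (X : Matrix (Fin N) (Fin N) K) :
    (bc X : Matrix (Fin N) (Fin N) F).trace = algebraMap K F X.trace := by
  simp [Matrix.trace, bc_apply]

/-- nondegeneracy of the trace form on a matrix algebra -/
def Nondeg {F : Type} [Field F] (A : Subalgebra F (Matrix (Fin N) (Fin N) F)) : Prop :=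
  ∀ a ∈ A, (∀ b ∈ A, (a * b).trace = 0) → a = 0

variable (F) in
/-- the image of a set of matrices -/
def img (S : Set (Matrix (Fin N) (Fin N) K)) : Set (Matrix (Fin N) (Fin N) F) :=
  (bc : Matrix (Fin N) (Fin N) K →+* Matrix (Fin N) (Fin N) F) '' S

theorem span_bc (A : Subalgebra K (Matrix (Fin N) (Fin N) K)) :
    Subalgebra.toSubmodule (Algebra.adjoin F (img F (A : Set (Matrix (Fin N) (Fin N) K)))) =
      Submodule.span F (img F (A : Set (Matrix (Fin N) (Fin N) K))) := by
  rw [Algebra.adjoin_eq_span_of_subset]
  have h1 : img F (A : Set (Matrix (Fin N) (Fin N) K)) =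
      ((A.toSubsemiring.toSubmonoid.map
        ((bc : Matrix (Fin N) (Fin N) K →+* Matrix (Fin N) (Fin N) F) :
          Matrix (Fin N) (Fin N) K →* Matrix (Fin N) (Fin N) F) :
          Submonoid (Matrix (Fin N) (Fin N) F)) : Set (Matrix (Fin N) (Fin N) F)) := rfl
  conv_lhs => rw [h1, Submonoid.closure_eq, ← h1]
  exact Submodule.subset_span

theorem nondeg_bc (A : Subalgebra K (Matrix (Fin N) (Fin N) K)) (hA : Nondeg A) :
    Nondeg (Algebra.adjoin F (img F (A : Set (Matrix (Fin N) (Fin N) K)))) := by
  classical
  intro a ha h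
  -- a basis of `A`
  set b := Module.finBasis K A with hb
  set D := Module.finrank K A
  let Gm : Matrix (Fin D) (Fin D) K := Matrix.of fun i j =>
    ((b i : Matrix (Fin N) (Fin N) K) * (b j : Matrix (Fin N) (Fin N) K)).trace
  have hdet : Gm.det ≠ 0 := by
    intro h0
    obtain ⟨v, hv, hv0⟩ := Matrix.exists_vecMul_eq_zero_iff.2 h0
    apply hv
    have h1 : (∑ i, v i • (b i : Matrix (Fin N) (Fin N) K)) = 0 := by
      apply hA _ (Subalgebra.sum_mem _ fun i _ => A.smul_mem (b i).2 _)
      intro c hc
      -- enough for basis elements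
      have h2 : (⟨c, hc⟩ : A) = ∑ j, b.repr ⟨c, hc⟩ j • b j := (b.sum_repr _).symm
      have h3 : c = ∑ j, b.repr ⟨c, hc⟩ j • (b j : Matrix (Fin N) (Fin N) K) := by
        have h := congrArg A.val h2
        rw [map_sum] at h
        exact h
      rw [h3, Finset.mul_sum, Matrix.trace_sum]
      refine Finset.sum_eq_zero fun j _ => ?_
      rw [mul_smul_comm, Matrix.trace_smul, Finset.sum_mul, Matrix.trace_sum]
      have h4 := congrFun hv0 j
      simp only [Matrix.vecMul, dotProduct, Gm, Matrix.of_apply, Pi.zero_apply] at h4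
      have h5 : (∑ i, (v i • (b i : Matrix (Fin N) (Fin N) K) *
          (b j : Matrix (Fin N) (Fin N) K)).trace) = 0 := by
        rw [← h4]
        refine Finset.sum_congr rfl fun i _ => ?_
        rw [smul_mul_assoc, Matrix.trace_smul, smul_eq_mul]
      rw [h5, smul_zero]
    have h6 : (∑ i, v i • b i) = 0 := by
      apply Subtype.ext
      simpa using h1
    funext i
    exact Fintype.linearIndependent_iff.1 b.linearIndependent v h6 i
  -- write `a` in terms of the basis
  have ha' : a ∈ Submodule.span F (Set.range fun i : Fin D =>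
      (bc (b i : Matrix (Fin N) (Fin N) K) : Matrix (Fin N) (Fin N) F)) := by
    rw [← Subalgebra.mem_toSubmodule, span_bc] at ha
    refine Submodule.span_le.2 ?_ ha
    rintro _ ⟨x, hx, rfl⟩
    have h2 : (⟨x, hx⟩ : A) = ∑ j, b.repr ⟨x, hx⟩ j • b j := (b.sum_repr _).symm
    have h3 : x = ∑ j, b.repr ⟨x, hx⟩ j • (b j : Matrix (Fin N) (Fin N) K) := by
      have h := congrArg A.val h2
      rw [map_sum] at h
      exact h
    have h4 : (bc x : Matrix (Fin N) (Fin N) F) =
        ∑ j, algebraMap K F (b.repr ⟨x, hx⟩ j) • bc (b j : Matrix (Fin N) (Fin N) K) := by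
      conv_lhs => rw [h3]
      rw [map_sum]
      exact Finset.sum_congr rfl fun j _ => bc_smul _ _
    change (bc x : Matrix (Fin N) (Fin N) F) ∈ _
    rw [h4]
    exact Submodule.sum_mem _ fun j _ => Submodule.smul_mem _ _ (Submodule.subset_span ⟨j, rfl⟩)
  obtain ⟨c, rfl⟩ := (Submodule.mem_span_range_iff_exists_fun F).1 ha'
  have hc : Matrix.vecMul c ((algebraMap K F).mapMatrix Gm) = 0 := by
    funext j
    have h1 := h (bc (b j : Matrix (Fin N) (Fin N) K))
      (Algebra.subset_adjoin ⟨_, (b j).2, rfl⟩)
    rw [Finset.sum_mul, Matrix.trace_sum] at h1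
    simp only [Matrix.vecMul, dotProduct, Pi.zero_apply]
    rw [← h1]
    refine Finset.sum_congr rfl fun i _ => ?_
    rw [smul_mul_assoc, Matrix.trace_smul, ← map_mul, trace_bc, smul_eq_mul]
    rfl
  have hc0 : c = 0 := by
    by_contra hne
    have h1 : ((algebraMap K F).mapMatrix Gm).det = 0 :=
      Matrix.exists_vecMul_eq_zero_iff.1 ⟨c, hne, hc⟩
    rw [← RingHom.map_det] at h1
    exact hdet ((map_eq_zero _).1 h1)
  rw [hc0]
  simp

theorem semisimple_of_nondeg {F : Type} [Field F] (A : Subalgebra F (Matrix (Fin N) (Fin N) F))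
    (hA : Nondeg A) : IsSemisimpleRing A := by
  have : IsArtinianRing A := IsArtinianRing.of_finite F A
  rw [IsArtinianRing.isSemisimpleRing_iff_jacobson]
  rw [eq_bot_iff]
  intro a ha
  obtain ⟨n, hn⟩ := (inferInstance : IsSemiprimaryRing A).isNilpotent
  have h1 : (a : Matrix (Fin N) (Fin N) F) = 0 := by
    apply hA _ a.2
    intro b hb
    have h2 : a * ⟨b, hb⟩ ∈ Ring.jacobson A := by
      exact Ideal.IsTwoSided.mul_mem_of_left _ ha
    have h3 : (a * ⟨b, hb⟩) ^ n = 0 := by
      have h4 : (a * ⟨b, hb⟩) ^ n ∈ Ring.jacobson A ^ n := Ideal.pow_mem_pow h2 n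
      rw [hn] at h4
      simpa using h4
    have h5 : IsNilpotent ((a : Matrix (Fin N) (Fin N) F) * b) :=
      ⟨n, congrArg Subtype.val h3⟩
    exact (Matrix.isNilpotent_trace_of_isNilpotent h5).eq_zero
  exact Subtype.ext h1

end BC

end Pool.Agent.H850.TF
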