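import Mathlib

/-!
# Polynomials vanishing on approximate lattices
-/

set_option autoImplicit false
set_option linter.unusedSectionVars false

namespace Pool.Agent.H850.TF

open Filter Topology MvPolynomial

variable {p : ℕ} [Fact p.Prime] {σ : Type*} [Fintype σ]

/-- `S` is closed under multiplication by natural numbers and, up to small errors and scaling,
under addition. -/
structure Approx (S : Set (σ → ℚ_[p])) : Prop where
  smul : ∀ x ∈ S, ∀ k : ℕ, (k : ℚ_[p]) • x ∈ S
  add : ∀ x ∈ S, ∀ y ∈ S, ∃ z : ℕ → σ → ℚ_[p], Tendsto z atTop (𝓝 (x + y)) ∧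
    ∀ᶠ n in atTop, ((p : ℚ_[p]) ^ n) • z n ∈ S

theorem eval_smul_homogeneous {K : Type*} [Field K] {P : MvPolynomial σ K} {d : ℕ}
    (hP : P.IsHomogeneous d) (c : K) (x : σ → K) : eval (c • x) P = c ^ d * eval x P := by
  rw [eval_eq', eval_eq', Finset.mul_sum]
  refine Finset.sum_congr rfl fun m hm => ?_
  have h1 : ∑ i, m i = d := by
    have h2 := hP (mem_support_iff.1 hm)
    rw [← h2, Finsupp.weight_apply, Finsupp.sum_fintype _ _ (by simp)]
    simp
  simp only [Pi.smul_apply, smul_eq_mul, mul_pow]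
  rw [Finset.prod_mul_distrib, Finset.prod_pow_eq_pow_sum, h1]
  ring

theorem homogeneousComponent_vanish {S : Set (σ → ℚ_[p])} (hS : Approx S)
    (P : MvPolynomial σ ℚ_[p]) (hP : ∀ x ∈ S, eval x P = 0) (d : ℕ) :
    ∀ x ∈ S, eval x (homogeneousComponent d P) = 0 := by
  intro x hx
  let q : Polynomial ℚ_[p] := ∑ i ∈ Finset.range (P.totalDegree + 1),
    Polynomial.C (eval x (homogeneousComponent i P)) * Polynomial.X ^ i
  have hq : q = 0 := by
    apply Polynomial.eq_zero_of_infinite_isRoot
    refine Set.Infinite.mono ?_ (Set.infinite_range_of_injective (Nat.cast_injective (R := ℚ_[p])))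
    rintro _ ⟨k, rfl⟩
    have h1 := hP _ (hS.smul x hx k)
    rw [← sum_homogeneousComponent P, map_sum] at h1
    change Polynomial.IsRoot q (k : ℚ_[p])
    rw [Polynomial.IsRoot.def]
    simp only [q, Polynomial.eval_finsetSum, Polynomial.eval_mul, Polynomial.eval_C,
      Polynomial.eval_pow, Polynomial.eval_X]
    rw [← h1]
    refine Finset.sum_congr rfl fun i _ => ?_
    rw [eval_smul_homogeneous (homogeneousComponent_isHomogeneous i P), mul_comm]
  by_cases hd : d ∈ Finset.range (P.totalDegree + 1)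
  · have h2 := congrArg (fun r : Polynomial ℚ_[p] => r.coeff d) hq
    simp only [q, Polynomial.finsetSum_coeff, Polynomial.coeff_C_mul, Polynomial.coeff_X_pow,
      Polynomial.coeff_zero] at h2
    rw [Finset.sum_eq_single d] at h2
    · simpa using h2
    · intro b _ hb
      simp [hb.symm]
    · intro h
      exact absurd hd h
  · rw [homogeneousComponent_eq_zero d P (by simpa using hd), map_zero]

theorem vanish_add {S : Set (σ → ℚ_[p])} (hS : Approx S)
    (P : MvPolynomial σ ℚ_[p]) (hP : ∀ x ∈ S, eval x P = 0) :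
    ∀ x ∈ S, ∀ y ∈ S, eval (x + y) P = 0 := by
  intro x hx y hy
  rw [← sum_homogeneousComponent P, map_sum]
  refine Finset.sum_eq_zero fun d _ => ?_
  have hd := homogeneousComponent_vanish hS P hP d
  obtain ⟨z, hz, hzS⟩ := hS.add x hx y hy
  have hcont : Continuous fun w : σ → ℚ_[p] => eval w (homogeneousComponent d P) :=
    MvPolynomial.continuous_eval _
  have hp0 : (p : ℚ_[p]) ≠ 0 := by exact_mod_cast (Fact.out : p.Prime).ne_zero
  have h1 : Tendsto (fun n => eval (z n) (homogeneousComponent d P)) atTop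
      (𝓝 (eval (x + y) (homogeneousComponent d P))) := (hcont.tendsto _).comp hz
  have h2 : Tendsto (fun n => eval (z n) (homogeneousComponent d P)) atTop (𝓝 0) := by
    refine tendsto_const_nhds.congr' ?_
    filter_upwards [hzS] with n hn
    have h3 := hd _ hn
    rw [eval_smul_homogeneous (homogeneousComponent_isHomogeneous d P)] at h3
    rcases mul_eq_zero.1 h3 with h | h
    · exact absurd h (pow_ne_zero _ (pow_ne_zero _ hp0))
    · exact h.symm
  exact tendsto_nhds_unique h1 h2

theorem eval_bind {τ : Type*} {K : Type*} [Field K] (f : σ → MvPolynomial τ K) (x : τ → K)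
    (P : MvPolynomial σ K) : eval x (bind₁ f P) = eval (fun i => eval x (f i)) P :=
  eval₂Hom_bind₁ (RingHom.id K) x f P

theorem vanish_sum {S : Set (σ → ℚ_[p])} (hS : Approx S) {ι : Type*} (s : Finset ι)
    (x : ι → σ → ℚ_[p]) (hx : ∀ i, x i ∈ S) (h0 : (0 : σ → ℚ_[p]) ∈ S) :
    ∀ P : MvPolynomial σ ℚ_[p], (∀ x ∈ S, eval x P = 0) → eval (∑ i ∈ s, x i) P = 0 := by
  classical
  induction s using Finset.induction_on with
  | empty =>
    intro P hP
    rw [Finset.sum_empty]
    exact hP 0 h0
  | insert a s ha ih =>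
    intro P hP
    rw [Finset.sum_insert ha]
    have h1 := ih (bind₁ (fun j => X j + C (x a j)) P) (by
      intro w hw
      rw [eval_bind]
      have h2 := vanish_add hS P hP w hw (x a) (hx a)
      have h3 : (fun i => eval w (X i + C (x a i))) = w + x a := by
        funext i
        simp
      rw [h3]
      exact h2)
    rw [eval_bind] at h1
    have h3 : (fun i => eval (∑ i ∈ s, x i) (X i + C (x a i))) = x a + ∑ i ∈ s, x i := by
      funext i
      simp [add_comm]
    rw [h3] at h1
    exact h1

theorem vanish_span {S : Set (σ → ℚ_[p])} (hS : Approx S) (h0 : (0 : σ → ℚ_[p]) ∈ S)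
    (P : MvPolynomial σ ℚ_[p]) (hP : ∀ x ∈ S, eval x P = 0)
    {K : Type*} [Field K] [Algebra ℚ_[p] K] (w : σ → K)
    (hw : w ∈ Submodule.span K ((fun x : σ → ℚ_[p] => fun j => algebraMap ℚ_[p] K (x j)) '' S)) :
    aeval w P = 0 := by
  classical
  obtain ⟨t, ht, c, rfl⟩ := Submodule.mem_span_image_iff_exists_fun K |>.1 hw
  -- the polynomial in the coefficients
  let Q : MvPolynomial t ℚ_[p] :=
    bind₁ (fun j => ∑ i : t, C ((i : σ → ℚ_[p]) j) * X i) P
  have hQ : Q = 0 := by
    apply MvPolynomial.funext_set (fun _ => Set.range (Nat.cast : ℕ → ℚ_[p]))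
      (fun _ => Set.infinite_range_of_injective Nat.cast_injective)
    intro k hk
    rw [map_zero]
    have hk' : ∀ i, ∃ m : ℕ, (m : ℚ_[p]) = k i := fun i => hk i (Set.mem_univ i)
    choose m hm using hk'
    have h1 := vanish_sum hS Finset.univ (fun i : t => (m i : ℚ_[p]) • (i : σ → ℚ_[p]))
      (fun i => hS.smul _ (ht i.2) _) h0 P hP
    simp only [Q, eval_bind]
    convert h1 using 2
    congr 1
    funext j
    simp [hm, mul_comm, Finset.sum_apply]
  have h2 : aeval c Q = 0 := by rw [hQ, map_zero]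
  simp only [Q, aeval_bind₁] at h2
  convert h2 using 2
  ext j
  simp [Finset.sum_apply, mul_comm]

end Pool.Agent.H850.TF
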