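import Pool.Agent.H850.TF.Log
import Pool.Agent.H850.TF.Density

/-!
# The Lie algebra of a small group of integral `p`-adic matrices
-/

set_option autoImplicit false
set_option linter.unusedSectionVars false

namespace Pool.Agent.H850.TF

open Filter Topology

variable {p : ℕ} [Fact p.Prime] {N : ℕ}

/-- A group of integral matrices congruent to one modulo `p ^ 2`. -/
structure Small (G : Set (Matrix (Fin N) (Fin N) ℤ_[p])) : Prop where
  one : 1 ∈ G
  mul : ∀ g ∈ G, ∀ h ∈ G, g * h ∈ G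
  inv : ∀ g ∈ G, ∃ g' ∈ G, g * g' = 1
  small : ∀ g ∈ G, ∃ a : Matrix (Fin N) (Fin N) ℤ_[p], g = 1 + (p : ℤ_[p]) ^ 2 • a

/-- matrices over `ℤ_p` as matrices over `ℚ_p` -/
noncomputable def toQ : Matrix (Fin N) (Fin N) ℤ_[p] →+* Matrix (Fin N) (Fin N) ℚ_[p] :=
  (algebraMap ℤ_[p] ℚ_[p]).mapMatrix

theorem toQ_apply (X : Matrix (Fin N) (Fin N) ℤ_[p]) (i j : Fin N) :
    toQ X i j = algebraMap ℤ_[p] ℚ_[p] (X i j) := rfl

theorem toQ_smul (c : ℤ_[p]) (X : Matrix (Fin N) (Fin N) ℤ_[p]) :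
    toQ (c • X) = (algebraMap ℤ_[p] ℚ_[p] c) • toQ X := by
  ext i j
  simp [toQ_apply]

theorem continuous_toQ : Continuous (toQ : Matrix (Fin N) (Fin N) ℤ_[p] → _) := by
  refine continuous_matrix fun i j => ?_
  have h1 : Continuous fun X : Matrix (Fin N) (Fin N) ℤ_[p] => X i j := continuous_id.matrix_elem i j
  exact continuous_subtype_val.comp h1

theorem toQ_mem_adjoin {a x : Matrix (Fin N) (Fin N) ℤ_[p]} (hx : x ∈ Algebra.adjoin ℤ_[p] {a}) :
    toQ x ∈ Algebra.adjoin ℚ_[p] {toQ a} := by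
  induction hx using Algebra.adjoin_induction with
  | mem x hx =>
    rw [Set.mem_singleton_iff] at hx
    rw [hx]
    exact Algebra.self_mem_adjoin_singleton _ _
  | algebraMap r =>
    rw [Algebra.algebraMap_eq_smul_one, toQ_smul, map_one]
    exact Subalgebra.smul_mem _ (Subalgebra.one_mem _) _
  | add x y _ _ hx hy => rw [map_add]; exact Subalgebra.add_mem _ hx hy
  | mul x y _ _ hx hy => rw [map_mul]; exact Subalgebra.mul_mem _ hx hy

/-- all logarithms of elements of `G` -/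
def LogSet (G : Set (Matrix (Fin N) (Fin N) ℤ_[p])) : Set (Matrix (Fin N) (Fin N) ℤ_[p]) :=
  {X | ∃ g ∈ G, IsLog g X}

variable {G : Set (Matrix (Fin N) (Fin N) ℤ_[p])}

theorem adjoin_singleton_le {K A : Type*} [CommRing K] [Ring A] [Algebra K A] {x y : A}
    (h : x ∈ Algebra.adjoin K {y}) : Algebra.adjoin K {x} ≤ Algebra.adjoin K {y} := by
  apply Algebra.adjoin_le
  intro z hz
  rw [Set.mem_singleton_iff] at hz
  rw [hz]
  exact h

/-- existence of logarithms, and both generate the same algebra -/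
theorem Small.exists_log (hG : Small G) {g : Matrix (Fin N) (Fin N) ℤ_[p]} (hg : g ∈ G) :
    ∃ X, IsLog g X ∧ toQ X ∈ Algebra.adjoin ℚ_[p] {toQ g} ∧
      toQ g ∈ Algebra.adjoin ℚ_[p] {toQ X} := by
  obtain ⟨a, rfl⟩ := hG.small g hg
  obtain ⟨y, hy, hlog⟩ := Pool.Agent.H850.TF.exists_log a 2 le_rfl
  have hp0 : (p : ℚ_[p]) ≠ 0 := by exact_mod_cast (Fact.out : p.Prime).ne_zero
  have hcoe : ∀ k : ℕ, algebraMap ℤ_[p] ℚ_[p] ((p : ℤ_[p]) ^ k) = (p : ℚ_[p]) ^ k := by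
    intro k
    simp
  refine ⟨_, hlog, ?_, ?_⟩
  · have ha : toQ a ∈ Algebra.adjoin ℚ_[p] {toQ (1 + (p : ℤ_[p]) ^ 2 • a)} := by
      have h1 : toQ a = ((p : ℚ_[p]) ^ 2)⁻¹ • (toQ (1 + (p : ℤ_[p]) ^ 2 • a) - 1) := by
        rw [map_add, map_one, toQ_smul, hcoe, add_sub_cancel_left, smul_smul,
          inv_mul_cancel₀ (pow_ne_zero _ hp0), one_smul]
      rw [h1]
      exact Subalgebra.smul_mem _ (Subalgebra.sub_mem _ (Algebra.self_mem_adjoin_singleton _ _)
        (Subalgebra.one_mem _)) _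
    rw [toQ_smul, map_add, toQ_smul]
    refine Subalgebra.smul_mem _ (Subalgebra.add_mem _ ha (Subalgebra.smul_mem _ ?_ _)) _
    exact adjoin_singleton_le ha (toQ_mem_adjoin hy)
  · have h1 := mem_adjoin_of_sub_mem (p := p) a (a + (p : ℤ_[p]) ^ (2 - 1) • y) y hy (by
      rw [show 2 - 1 = 1 by rfl, pow_one])
    have h2 := toQ_mem_adjoin h1
    have h3 : toQ (a + (p : ℤ_[p]) ^ (2 - 1) • y) ∈ Algebra.adjoin ℚ_[p]
        {toQ ((p : ℤ_[p]) ^ 2 • (a + (p : ℤ_[p]) ^ (2 - 1) • y))} := by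
      have h4 : toQ (a + (p : ℤ_[p]) ^ (2 - 1) • y) = ((p : ℚ_[p]) ^ 2)⁻¹ •
          toQ ((p : ℤ_[p]) ^ 2 • (a + (p : ℤ_[p]) ^ (2 - 1) • y)) := by
        rw [toQ_smul, hcoe, smul_smul, inv_mul_cancel₀ (pow_ne_zero _ hp0), one_smul]
      rw [h4]
      exact Subalgebra.smul_mem _ (Algebra.self_mem_adjoin_singleton _ _) _
    rw [map_add, map_one, toQ_smul]
    refine Subalgebra.add_mem _ (Subalgebra.one_mem _) (Subalgebra.smul_mem _ ?_ _)
    exact adjoin_singleton_le h3 h2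

theorem Small.pow (hG : Small G) {g : Matrix (Fin N) (Fin N) ℤ_[p]} (hg : g ∈ G) (k : ℕ) :
    g ^ k ∈ G := by
  induction k with
  | zero => rw [pow_zero]; exact hG.one
  | succ k ih => rw [pow_succ]; exact hG.mul _ ih _ hg

theorem Small.zero_mem (hG : Small G) : (0 : Matrix (Fin N) (Fin N) ℤ_[p]) ∈ LogSet G := by
  refine ⟨1, hG.one, fun _ => 0, fun n => by simp, tendsto_const_nhds⟩

theorem Small.nsmul (hG : Small G) {X : Matrix (Fin N) (Fin N) ℤ_[p]} (hX : X ∈ LogSet G) (k : ℕ) :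
    ((k : ℤ_[p]) • X) ∈ LogSet G := by
  obtain ⟨g, hg, h⟩ := hX
  exact ⟨g ^ k, hG.pow hg k, h.pow k⟩

theorem Small.add (hG : Small G) {X Y : Matrix (Fin N) (Fin N) ℤ_[p]} (hX : X ∈ LogSet G)
    (hY : Y ∈ LogSet G) : ∃ z : ℕ → Matrix (Fin N) (Fin N) ℤ_[p],
      Tendsto z atTop (𝓝 (X + Y)) ∧ ∀ n, 2 ≤ n → ((p : ℤ_[p]) ^ n • z n) ∈ LogSet G := by
  obtain ⟨g, hg, h⟩ := hX
  obtain ⟨g', hg', h'⟩ := hY
  obtain ⟨z, hz, hzl⟩ := h.mul h'
  exact ⟨z, hz, fun n hn => ⟨_, hG.mul _ (hG.pow hg _) _ (hG.pow hg' _), hzl n hn⟩⟩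

/-- the Lie algebra: the span of the logarithms -/
noncomputable def lieSpan (G : Set (Matrix (Fin N) (Fin N) ℤ_[p])) :
    Submodule ℚ_[p] (Matrix (Fin N) (Fin N) ℚ_[p]) :=
  Submodule.span ℚ_[p] (toQ '' LogSet G)

theorem Small.bracket_log (hG : Small G) {X Y : Matrix (Fin N) (Fin N) ℤ_[p]} (hX : X ∈ LogSet G)
    (hY : Y ∈ LogSet G) : toQ X * toQ Y - toQ Y * toQ X ∈ lieSpan G := by
  obtain ⟨g, hg, h⟩ := hX
  obtain ⟨g₂, hg₂, h₂⟩ := hY
  obtain ⟨g', hg', hgg'⟩ := hG.inv g hg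
  obtain ⟨y, b, hy, hb, hlim⟩ := h.tendsto_bracket (h := g₂) (Y := Y) ⟨g', hgg'⟩
  have hp0 : (p : ℚ_[p]) ≠ 0 := by exact_mod_cast (Fact.out : p.Prime).ne_zero
  have hcl : IsClosed (lieSpan G : Set (Matrix (Fin N) (Fin N) ℚ_[p])) :=
    Submodule.closed_of_finiteDimensional _
  have hmem : ∀ n, toQ (b n) ∈ lieSpan G := by
    intro n
    obtain ⟨k, hk, hyn⟩ := hy n
    have h1 : toQ (y n) ∈ lieSpan G := by
      apply Submodule.subset_span
      refine ⟨y n, ?_, rfl⟩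
      -- the inverse is in the group
      obtain ⟨k', hk', hkk'⟩ := hG.inv _ (hG.pow hg (p ^ n))
      have hkeq : k = k' := by
        have h3 : k * g ^ p ^ n = 1 := mul_eq_one_comm.1 hk
        calc k = k * (g ^ p ^ n * k') := by rw [hkk', mul_one]
          _ = k' := by rw [← mul_assoc, h3, one_mul]
      rw [hyn]
      refine ⟨g ^ p ^ n * g₂ * k, ?_, h₂.conj hk⟩
      rw [hkeq]
      exact hG.mul _ (hG.mul _ (hG.pow hg _) _ hg₂) _ hk'
    have h2 : toQ (b n) = ((p : ℚ_[p]) ^ n)⁻¹ • (toQ (y n) - toQ Y) := by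
      rw [← map_sub, hb n, toQ_smul, smul_smul]
      have : algebraMap ℤ_[p] ℚ_[p] ((p : ℤ_[p]) ^ n) = (p : ℚ_[p]) ^ n := by simp
      rw [this, inv_mul_cancel₀ (pow_ne_zero _ hp0), one_smul]
    rw [h2]
    refine Submodule.smul_mem _ _ (Submodule.sub_mem _ h1 ?_)
    exact Submodule.subset_span ⟨Y, ⟨g₂, hg₂, h₂⟩, rfl⟩
  have hlim' : Tendsto (fun n => toQ (b n)) atTop (𝓝 (toQ (X * Y - Y * X))) :=
    (continuous_toQ.tendsto _).comp hlim
  have h3 := hcl.mem_of_tendsto hlim' (Eventually.of_forall hmem)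
  rw [map_sub, map_mul, map_mul] at h3
  exact h3

theorem Small.bracket (hG : Small G) {X Y : Matrix (Fin N) (Fin N) ℚ_[p]} (hX : X ∈ lieSpan G)
    (hY : Y ∈ lieSpan G) : X * Y - Y * X ∈ lieSpan G := by
  induction hX using Submodule.span_induction with
  | mem X hX =>
    induction hY using Submodule.span_induction with
    | mem Y hY =>
      obtain ⟨X, hX, rfl⟩ := hX
      obtain ⟨Y, hY, rfl⟩ := hY
      exact hG.bracket_log hX hY
    | zero => simp
    | add Y Y' _ _ h h' =>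
      have : X * (Y + Y') - (Y + Y') * X = (X * Y - Y * X) + (X * Y' - Y' * X) := by
        rw [mul_add, add_mul]; abel
      rw [this]
      exact Submodule.add_mem _ h h'
    | smul c Y _ h =>
      have : X * (c • Y) - (c • Y) * X = c • (X * Y - Y * X) := by
        rw [mul_smul_comm, smul_mul_assoc, smul_sub]
      rw [this]
      exact Submodule.smul_mem _ _ h
  | zero => simp
  | add X X' _ _ h h' =>
    have : (X + X') * Y - Y * (X + X') = (X * Y - Y * X) + (X' * Y - Y * X') := by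
      rw [mul_add, add_mul]; abel
    rw [this]
    exact Submodule.add_mem _ h h'
  | smul c X _ h =>
    have : (c • X) * Y - Y * (c • X) = c • (X * Y - Y * X) := by
      rw [mul_smul_comm, smul_mul_assoc, smul_sub]
    rw [this]
    exact Submodule.smul_mem _ _ h

/-- the coordinates of a pair of matrices -/
def coords {K : Type*} (X Y : Matrix (Fin N) (Fin N) K) : Fin 2 × Fin N × Fin N → K :=
  fun q => if q.1 = 0 then X q.2.1 q.2.2 else Y q.2.1 q.2.2

/-- the coordinates of pairs of logarithms -/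
def pairSet (G : Set (Matrix (Fin N) (Fin N) ℤ_[p])) : Set (Fin 2 × Fin N × Fin N → ℚ_[p]) :=
  {w | ∃ X ∈ LogSet G, ∃ Y ∈ LogSet G, w = coords (toQ X) (toQ Y)}

theorem Small.zero_mem_pairSet (hG : Small G) : 0 ∈ pairSet G := by
  refine ⟨0, hG.zero_mem, 0, hG.zero_mem, ?_⟩
  funext q
  simp [coords]

theorem Small.approx (hG : Small G) : Approx (pairSet G) := by
  constructor
  · rintro _ ⟨X, hX, Y, hY, rfl⟩ k
    refine ⟨_, hG.nsmul hX k, _, hG.nsmul hY k, ?_⟩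
    funext q
    simp only [Pi.smul_apply, coords, toQ_smul]
    split_ifs <;> simp
  · rintro _ ⟨X, hX, Y, hY, rfl⟩ _ ⟨X', hX', Y', hY', rfl⟩
    obtain ⟨z, hz, hzl⟩ := hG.add hX hX'
    obtain ⟨z', hz', hzl'⟩ := hG.add hY hY'
    refine ⟨fun n => coords (toQ (z n)) (toQ (z' n)), ?_, ?_⟩
    · rw [tendsto_pi_nhds]
      rintro ⟨k, i, j⟩
      have h1 : Tendsto (fun n => toQ (z n) i j) atTop (𝓝 (toQ (X + X') i j)) :=
        ((continuous_toQ.matrix_elem i j).tendsto _).comp hz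
      have h2 : Tendsto (fun n => toQ (z' n) i j) atTop (𝓝 (toQ (Y + Y') i j)) :=
        ((continuous_toQ.matrix_elem i j).tendsto _).comp hz'
      rw [map_add] at h1 h2
      by_cases hk : k = 0
      · simp only [coords, hk, Pi.add_apply, if_true]
        exact h1
      · simp only [coords, hk, Pi.add_apply, if_false]
        exact h2
    · filter_upwards [eventually_ge_atTop 2] with n hn
      refine ⟨_, hzl n hn, _, hzl' n hn, ?_⟩
      funext q
      simp only [Pi.smul_apply, coords, toQ_smul]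
      split_ifs <;> simp

end Pool.Agent.H850.TF
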