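import Mathlib

/-!
# Two elements generate a semisimple Lie algebra: the root vectors
-/

set_option autoImplicit false
set_option linter.unusedSectionVars false

namespace Pool.Agent.H850.TF

open LieAlgebra LieModule

section Killing

universe u v

variable (K : Type u) (S : Type v) [Field K] [IsAlgClosed K] [CharZero K] [LieRing S] [LieAlgebra K S]
  [Module.Finite K S] [IsKilling K S]

theorem perfect_of_isKilling (D : Submodule K S) (hD : ∀ x y : S, ⁅x, y⁆ ∈ D) : D = ⊤ := by
  by_contra hne
  -- a nonzero functional vanishing on `D`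
  obtain ⟨f, hf0, hfD⟩ := Submodule.exists_le_ker_of_lt_top D (lt_top_iff_ne_top.2 hne)
  -- it is given by the Killing form
  obtain ⟨x, hx⟩ : ∃ x : S, killingForm K S x = f := by
    have hinj : Function.Injective (killingForm K S) := by
      rw [← LinearMap.ker_eq_bot]
      exact IsKilling.ker_killingForm_eq_bot K S
    have hsurj : Function.Surjective (killingForm K S) :=
      (LinearMap.injective_iff_surjective_of_finrank_eq_finrank
        (Subspace.dual_finrank_eq).symm).1 hinj
    exact hsurj f
  have h1 : ∀ y : S, ⁅x, y⁆ = 0 := by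
    intro y
    have h2 : killingForm K S ⁅x, y⁆ = 0 := by
      ext z
      have h3 := LieModule.traceForm_apply_lie_apply K S S x y z
      change killingForm K S ⁅x, y⁆ z = killingForm K S x ⁅y, z⁆ at h3
      rw [h3, hx]
      exact hfD (hD y z)
    have hker : ⁅x, y⁆ ∈ LinearMap.ker (killingForm K S) := h2
    rw [IsKilling.ker_killingForm_eq_bot] at hker
    simpa using hker
  have h4 : x ∈ LieAlgebra.center K S := by
    rw [LieModule.mem_maxTrivSubmodule]
    intro y
    rw [← lie_skew, h1, neg_zero]
  rw [LieAlgebra.center_eq_bot, LieSubmodule.mem_bot] at h4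
  rw [h4, map_zero] at hx
  exact hf0 hx.symm

theorem exists_root_vectors : ∃ (ι : Type (max u v)) (_ : Fintype ι) (X₀ : S) (e : ι → S) (a : ι → K),
    Function.Injective a ∧ (∀ i, a i ≠ 0) ∧ (∀ i, ⁅X₀, e i⁆ = a i • e i) ∧
    LieSubalgebra.lieSpan K S (Set.range e) = ⊤ := by
  classical
  obtain ⟨x, hx⟩ := LieAlgebra.exists_isCartanSubalgebra_engel K S
  set H := LieSubalgebra.engel K x with hH
  let ι := {α : LieModule.Weight K H S // α.IsNonZero}
  have : Finite ι := inferInstance
  have : Fintype ι := Fintype.ofFinite ι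
  -- a regular element
  obtain ⟨X₀, hX₀⟩ := Module.Dual.exists_forall_ne_zero_of_forall_exists (K := K) (M := H)
    (ι := {q : LieModule.Weight K H S × LieModule.Weight K H S // q.1 ≠ q.2} ⊕ ι)
    (fun q => Sum.elim (fun q => q.1.1.toLinear - q.1.2.toLinear) (fun α => α.1.toLinear) q)
    (by
      rintro (⟨⟨α, β⟩, hne⟩ | ⟨α, hα⟩)
      · by_contra hc
        push Not at hc
        apply hne
        ext h
        have := hc h
        simpa [sub_eq_zero] using this
      · by_contra hc
        push Not at hc
        apply hα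
        ext h
        have := hc h
        simpa using this)
  have hvec : ∀ α : ι, ∃ e : S, e ∈ rootSpace H α.1 ∧ e ≠ 0 := by
    intro α
    have h1 : (rootSpace H α.1).toSubmodule ≠ ⊥ := by
      rw [ne_eq, LieSubmodule.toSubmodule_eq_bot]
      exact α.1.genWeightSpace_ne_bot
    exact (Submodule.ne_bot_iff _).1 h1
  choose e he he0 using hvec
  have hspan : ∀ (α : ι) (y : S), y ∈ rootSpace H α.1 → ∃ c : K, c • e α = y := by
    intro α y hy
    have h1 := IsKilling.finrank_rootSpace_eq_one (K := K) (L := S) (H := H) α.1 α.2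
    have h2 : (⟨e α, he α⟩ : rootSpace H α.1) ≠ 0 := by
      intro h
      exact he0 α (congrArg Subtype.val h)
    obtain ⟨c, hc⟩ := (finrank_eq_one_iff_of_nonzero' _ h2).1 h1 ⟨y, hy⟩
    exact ⟨c, congrArg Subtype.val hc⟩
  refine ⟨ι, this, (X₀ : S), e, fun α => α.1 X₀, ?_, ?_, ?_, ?_⟩
  · intro α β h
    by_contra hne
    have h1 : α.1 ≠ β.1 := fun h => hne (Subtype.ext h)
    have h2 := hX₀ (Sum.inl ⟨(α.1, β.1), h1⟩)
    apply h2
    have h3 : α.1 X₀ = β.1 X₀ := h
    simpa [sub_eq_zero] using h3
  · intro α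
    exact hX₀ (Sum.inr α)
  · intro α
    exact IsKilling.lie_eq_smul_of_mem_rootSpace (he α) X₀
  · set I := LieSubalgebra.lieSpan K S (Set.range e) with hI
    have heI : ∀ α, e α ∈ I := fun α => LieSubalgebra.subset_lieSpan ⟨α, rfl⟩
    -- stability under `H`
    have hHI : ∀ (h : H), ∀ y ∈ I, ⁅(h : S), y⁆ ∈ I := by
      intro h y hy
      induction hy using LieSubalgebra.lieSpan_induction with
      | mem y hy =>
        obtain ⟨α, rfl⟩ := hy
        have h1 : ⁅(h : S), e α⁆ = α.1 h • e α := IsKilling.lie_eq_smul_of_mem_rootSpace (he α) h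
        rw [h1]
        exact I.smul_mem _ (heI α)
      | zero => simp
      | add y z _ _ hy hz => rw [lie_add]; exact I.add_mem hy hz
      | smul c y _ hy => rw [lie_smul]; exact I.smul_mem _ hy
      | lie y z hyI hzI hy hz =>
        rw [leibniz_lie]
        exact I.add_mem (I.lie_mem hy hzI) (I.lie_mem hyI hz)
    have htop : ∀ y : S, ∃ h : H, ∃ i ∈ I, y = h + i := by
      have h1 := cartan_sup_iSup_rootSpace_eq_top H
      have h2 : H.toLieSubmodule.toSubmodule ⊔ I.toSubmodule = ⊤ := by
        rw [eq_top_iff]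
        have h3 : (H.toLieSubmodule ⊔ ⨆ α : Weight K H S, ⨆ (_ : α.IsNonZero),
            rootSpace H α).toSubmodule ≤ H.toLieSubmodule.toSubmodule ⊔ I.toSubmodule := by
          rw [LieSubmodule.sup_toSubmodule]
          refine sup_le_sup_left ?_ _
          rw [LieSubmodule.iSup_toSubmodule]
          refine iSup_le fun α => ?_
          rw [LieSubmodule.iSup_toSubmodule]
          refine iSup_le fun hα => ?_
          intro y hy
          obtain ⟨c, rfl⟩ := hspan ⟨α, hα⟩ y hy
          exact I.smul_mem _ (heI _)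
        rw [h1] at h3
        exact h3
      intro y
      have hy : y ∈ H.toLieSubmodule.toSubmodule ⊔ I.toSubmodule := by rw [h2]; trivial
      obtain ⟨h, hh, i, hi, rfl⟩ := Submodule.mem_sup.1 hy
      exact ⟨⟨h, by simpa using hh⟩, i, hi, rfl⟩
    have hD := perfect_of_isKilling K S I.toSubmodule (by
      intro y z
      obtain ⟨h, i, hi, rfl⟩ := htop y
      obtain ⟨h', i', hi', rfl⟩ := htop z
      have hab : ⁅(h : S), (h' : S)⁆ = 0 := by
        have h3 : ⁅h, h'⁆ = 0 := trivial_lie_zero H H h h'
        have h4 := congrArg (fun w : H => (w : S)) h3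
        simpa using h4
      rw [add_lie, lie_add, lie_add, hab, zero_add]
      refine I.add_mem (hHI h i' hi') (I.add_mem ?_ (I.lie_mem hi hi'))
      rw [← lie_skew]
      exact I.neg_mem (hHI h' i hi))
    rw [← LieSubalgebra.toSubmodule_inj, hD]
    rfl

end Killing

end Pool.Agent.H850.TF
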