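import Mathlib

/-!
# Logarithms of integral `p`-adic matrices
-/

set_option autoImplicit false
set_option linter.unusedSectionVars false

namespace Pool.Agent.H850.TF

open Filter Topology

variable {p : ℕ} [Fact p.Prime]

section Algebra

variable {R : Type*} [Ring R] [Algebra ℤ_[p] R]

/-- binomial expansion to second order -/
theorem one_add_pow (z : R) (k : ℕ) :
    ∃ c ∈ Algebra.adjoin ℤ_[p] {z}, (1 + z) ^ k = 1 + (k : ℤ_[p]) • z + z * z * c := by
  have hz : z ∈ Algebra.adjoin ℤ_[p] {z} := Algebra.self_mem_adjoin_singleton _ _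
  induction k with
  | zero => exact ⟨0, Subalgebra.zero_mem _, by simp⟩
  | succ k ih =>
    obtain ⟨c, hc, h⟩ := ih
    refine ⟨(k : ℤ_[p]) • 1 + c * (1 + z), ?_, ?_⟩
    · refine Subalgebra.add_mem _ (Subalgebra.smul_mem _ (Subalgebra.one_mem _) _) ?_
      exact Subalgebra.mul_mem _ hc (Subalgebra.add_mem _ (Subalgebra.one_mem _) hz)
    · rw [pow_succ, h]
      push_cast
      rw [add_smul, one_smul]
      simp only [mul_add, add_mul, mul_one, one_mul, smul_mul_assoc, mul_smul_comm, mul_assoc]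
      abel

/-- one step of the `p`-power map -/
theorem step (x : R) (M : ℕ) (hM : 1 ≤ M) :
    ∃ y ∈ Algebra.adjoin ℤ_[p] {x},
      (1 + (p : ℤ_[p]) ^ M • x) ^ p = 1 + (p : ℤ_[p]) ^ (M + 1) • (x + (p : ℤ_[p]) ^ (M - 1) • y) := by
  obtain ⟨c, hc, h⟩ := one_add_pow (p := p) ((p : ℤ_[p]) ^ M • x) p
  have hx : x ∈ Algebra.adjoin ℤ_[p] {x} := Algebra.self_mem_adjoin_singleton _ _
  have hle : Algebra.adjoin ℤ_[p] {(p : ℤ_[p]) ^ M • x} ≤ Algebra.adjoin ℤ_[p] {x} := by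
    apply Algebra.adjoin_le
    intro y hy
    rw [Set.mem_singleton_iff] at hy
    rw [hy]
    exact Subalgebra.smul_mem _ hx _
  refine ⟨x * x * c, Subalgebra.mul_mem _ (Subalgebra.mul_mem _ hx hx) (hle hc), ?_⟩
  rw [h, smul_add, smul_smul, smul_smul, ← pow_add, ← pow_succ']
  have h1 : (p : ℤ_[p]) ^ M • x * (p : ℤ_[p]) ^ M • x * c =
      (p : ℤ_[p]) ^ (M + 1 + (M - 1)) • (x * x * c) := by
    rw [show M + 1 + (M - 1) = M + M by omega, pow_add]
    simp only [smul_mul_assoc, mul_smul_comm, smul_smul, mul_assoc]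
  rw [h1, add_assoc]

/-- the successive quotients `(g ^ (p ^ n) - 1) / p ^ n` -/
theorem exists_seq (a : R) (m : ℕ) (hm : 1 ≤ m) :
    ∃ s : ℕ → R, s 0 = a ∧ (∀ n, s n ∈ Algebra.adjoin ℤ_[p] {a}) ∧
      (∀ n, (1 + (p : ℤ_[p]) ^ m • a) ^ (p ^ n) = 1 + (p : ℤ_[p]) ^ (m + n) • s n) ∧
      ∀ n, ∃ y ∈ Algebra.adjoin ℤ_[p] {a}, s (n + 1) = s n + (p : ℤ_[p]) ^ (m + n - 1) • y := by
  have hst : ∀ (x : R) (M : ℕ), ∃ y ∈ Algebra.adjoin ℤ_[p] {x}, 1 ≤ M →
      (1 + (p : ℤ_[p]) ^ M • x) ^ p = 1 + (p : ℤ_[p]) ^ (M + 1) • (x + (p : ℤ_[p]) ^ (M - 1) • y) := by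
    intro x M
    by_cases hM : 1 ≤ M
    · obtain ⟨y, hy, h⟩ := step (p := p) x M hM
      exact ⟨y, hy, fun _ => h⟩
    · exact ⟨0, Subalgebra.zero_mem _, fun h => absurd h hM⟩
  choose y hy hst using hst
  let s : ℕ → R := fun n =>
    Nat.rec (motive := fun _ => R) a (fun k x => x + (p : ℤ_[p]) ^ (m + k - 1) • y x (m + k)) n
  have hs1 : ∀ n, s (n + 1) = s n + (p : ℤ_[p]) ^ (m + n - 1) • y (s n) (m + n) := fun n => rfl
  have hmem : ∀ n, s n ∈ Algebra.adjoin ℤ_[p] {a} := by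
    intro n
    induction n with
    | zero => exact Algebra.self_mem_adjoin_singleton _ _
    | succ n ih =>
      rw [hs1]
      refine Subalgebra.add_mem _ ih (Subalgebra.smul_mem _ ?_ _)
      have hle : Algebra.adjoin ℤ_[p] {s n} ≤ Algebra.adjoin ℤ_[p] {a} := by
        apply Algebra.adjoin_le
        intro z hz
        rw [Set.mem_singleton_iff] at hz
        rw [hz]
        exact ih
      exact hle (hy _ _)
  refine ⟨s, rfl, hmem, ?_, ?_⟩
  · intro n
    induction n with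
    | zero => simp [s]
    | succ n ih =>
      rw [pow_succ, pow_mul, ih, hst _ _ (by omega), hs1]
      rfl
  · intro n
    refine ⟨y (s n) (m + n), ?_, hs1 n⟩
    have hle : Algebra.adjoin ℤ_[p] {s n} ≤ Algebra.adjoin ℤ_[p] {a} := by
      apply Algebra.adjoin_le
      intro z hz
      rw [Set.mem_singleton_iff] at hz
      rw [hz]
      exact hmem n
    exact hle (hy _ _)

/-- a form of Nakayama's lemma for subalgebras generated by one element -/
theorem mem_adjoin_of_sub_mem [Module.Finite ℤ_[p] R] (u ν c : R)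
    (hc : c ∈ Algebra.adjoin ℤ_[p] {u}) (h : ν = u + (p : ℤ_[p]) • c) :
    u ∈ Algebra.adjoin ℤ_[p] {ν} := by
  have hu : u ∈ Algebra.adjoin ℤ_[p] {u} := Algebra.self_mem_adjoin_singleton _ _
  have hν : ν ∈ Algebra.adjoin ℤ_[p] {u} := by
    rw [h]
    exact Subalgebra.add_mem _ hu (Subalgebra.smul_mem _ hc _)
  have hν' : ν ∈ Algebra.adjoin ℤ_[p] {ν} := Algebra.self_mem_adjoin_singleton _ _
  have hle : Algebra.adjoin ℤ_[p] {ν} ≤ Algebra.adjoin ℤ_[p] {u} := by
    apply Algebra.adjoin_le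
    intro z hz
    rw [Set.mem_singleton_iff] at hz
    rw [hz]
    exact hν
  -- every element of the big algebra is congruent to one of the small algebra
  have key : ∀ x ∈ Algebra.adjoin ℤ_[p] {u}, ∃ b ∈ Algebra.adjoin ℤ_[p] {ν},
      ∃ d ∈ Algebra.adjoin ℤ_[p] {u}, x = b + (p : ℤ_[p]) • d := by
    intro x hx
    induction hx using Algebra.adjoin_induction with
    | mem x hx =>
      rw [Set.mem_singleton_iff] at hx
      refine ⟨ν, hν', -c, Subalgebra.neg_mem _ hc, ?_⟩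
      rw [hx, h, smul_neg]
      abel
    | algebraMap r => exact ⟨_, Subalgebra.algebraMap_mem _ r, 0, Subalgebra.zero_mem _, by simp⟩
    | add x y _ _ hx hy =>
      obtain ⟨b, hb, d, hd, rfl⟩ := hx
      obtain ⟨b', hb', d', hd', rfl⟩ := hy
      refine ⟨b + b', Subalgebra.add_mem _ hb hb', d + d', Subalgebra.add_mem _ hd hd', ?_⟩
      rw [smul_add]
      abel
    | mul x y _ _ hx hy =>
      obtain ⟨b, hb, d, hd, rfl⟩ := hx
      obtain ⟨b', hb', d', hd', rfl⟩ := hy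
      refine ⟨b * b', Subalgebra.mul_mem _ hb hb', b * d' + d * (b' + (p : ℤ_[p]) • d'), ?_, ?_⟩
      · refine Subalgebra.add_mem _ (Subalgebra.mul_mem _ (hle hb) hd') ?_
        exact Subalgebra.mul_mem _ hd (Subalgebra.add_mem _ (hle hb') (Subalgebra.smul_mem _ hd' _))
      · simp only [mul_add, add_mul, smul_mul_assoc, mul_smul_comm, smul_add]
        abel
  have hfg : (Subalgebra.toSubmodule (Algebra.adjoin ℤ_[p] {u})).FG := by
    have : IsNoetherian ℤ_[p] R := isNoetherian_of_isNoetherianRing_of_finite ℤ_[p] R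
    exact IsNoetherian.noetherian _
  have hJ : (Ideal.span {(p : ℤ_[p])}) ≤ Ideal.jacobson ⊥ := by
    rw [IsLocalRing.jacobson_eq_maximalIdeal ⊥ bot_ne_top, ← PadicInt.maximalIdeal_eq_span_p]
  have h1 := Submodule.le_of_le_smul_of_le_jacobson_bot
    (N := Subalgebra.toSubmodule (Algebra.adjoin ℤ_[p] {ν})) hfg hJ (by
      intro x hx
      obtain ⟨b, hb, d, hd, rfl⟩ := key x hx
      refine Submodule.add_mem_sup hb ?_
      exact Submodule.smul_mem_smul (Ideal.subset_span rfl) hd)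
  exact h1 hu

end Algebra

section Top

variable {N : ℕ}

theorem tendsto_matrix {f : ℕ → Matrix (Fin N) (Fin N) ℤ_[p]} {X : Matrix (Fin N) (Fin N) ℤ_[p]}
    (h : ∀ i j, Tendsto (fun n => f n i j) atTop (𝓝 (X i j))) : Tendsto f atTop (𝓝 X) := by
  have h1 : Tendsto (fun n => (fun i => (fun j => f n i j) : Fin N → Fin N → ℤ_[p])) atTop
      (𝓝 (fun i => (fun j => X i j))) := by
    rw [tendsto_pi_nhds]
    intro i
    rw [tendsto_pi_nhds]
    intro j
    exact h i j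
  exact h1

theorem norm_p_pow (k : ℕ) : ‖(p : ℤ_[p]) ^ k‖ = ((p : ℝ)⁻¹) ^ k := by
  rw [norm_pow, PadicInt.norm_p]

/-- submodules of matrices over `ℤ_p` are closed -/
theorem isClosed_submodule (C : Submodule ℤ_[p] (Matrix (Fin N) (Fin N) ℤ_[p])) :
    IsClosed (C : Set (Matrix (Fin N) (Fin N) ℤ_[p])) := by
  have hfg : C.FG := IsNoetherian.noetherian C
  obtain ⟨k, f, hf⟩ := (Submodule.fg_iff_exists_fin_linearMap ℤ_[p] _).1 hfg
  have hcont : Continuous f := by
    have : ⇑f = fun x => ∑ i, x i • f (Pi.single i 1) := by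
      funext x
      conv_lhs => rw [← Finset.univ_sum_single x]
      rw [map_sum]
      refine Finset.sum_congr rfl fun i _ => ?_
      rw [← map_smul, ← Pi.single_smul, smul_eq_mul, mul_one]
    rw [this]
    refine continuous_finsetSum _ fun i _ => ?_
    exact (continuous_apply i).smul continuous_const
  have : (C : Set (Matrix (Fin N) (Fin N) ℤ_[p])) = Set.range f := by
    rw [← hf]
    rfl
  rw [this]
  exact (isCompact_range hcont).isClosed

/-- `X` is the logarithm of `g`. -/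
def IsLog (g X : Matrix (Fin N) (Fin N) ℤ_[p]) : Prop :=
  ∃ x : ℕ → Matrix (Fin N) (Fin N) ℤ_[p],
    (∀ n, g ^ (p ^ n) = 1 + (p : ℤ_[p]) ^ n • x n) ∧ Tendsto x atTop (𝓝 X)

theorem tendsto_p_smul (y : ℕ → Matrix (Fin N) (Fin N) ℤ_[p]) :
    Tendsto (fun n => (p : ℤ_[p]) ^ n • y n) atTop (𝓝 0) := by
  refine tendsto_matrix fun i j => ?_
  have hp1 : (1 : ℝ) < p := by exact_mod_cast (Fact.out : p.Prime).one_lt
  refine squeeze_zero_norm (a := fun n => ((p : ℝ)⁻¹) ^ n) (fun n => ?_)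
    (tendsto_pow_atTop_nhds_zero_of_lt_one (by positivity) (inv_lt_one_of_one_lt₀ hp1))
  change ‖(p : ℤ_[p]) ^ n * y n i j‖ ≤ _
  rw [norm_mul, norm_p_pow]
  exact mul_le_of_le_one_right (by positivity) (PadicInt.norm_le_one _)

/-- The main existence statement: for `g = 1 + p ^ m a` with `m ≥ 1` the logarithm is
`p ^ m (a + p ^ (m - 1) y)` with `y` in `ℤ_p[a]`. -/
theorem exists_log (a : Matrix (Fin N) (Fin N) ℤ_[p]) (m : ℕ) (hm : 2 ≤ m) :
    ∃ y ∈ Algebra.adjoin ℤ_[p] {a},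
      IsLog (1 + (p : ℤ_[p]) ^ m • a) ((p : ℤ_[p]) ^ m • (a + (p : ℤ_[p]) ^ (m - 1) • y)) := by
  have hp1 : (1 : ℝ) < p := by exact_mod_cast (Fact.out : p.Prime).one_lt
  obtain ⟨s, hs0, hsC, hspow, hstep⟩ := exists_seq (p := p) a m (by omega)
  -- convergence
  have hconv : ∀ i j, ∃ l, Tendsto (fun n => s n i j) atTop (𝓝 l) := by
    intro i j
    apply cauchySeq_tendsto_of_complete
    refine cauchySeq_of_le_geometric ((p : ℝ)⁻¹) 1 (inv_lt_one_of_one_lt₀ hp1) ?_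
    intro n
    obtain ⟨y, -, hy⟩ := hstep n
    rw [dist_comm, dist_eq_norm, hy]
    change ‖s n i j + (p : ℤ_[p]) ^ (m + n - 1) * y i j - s n i j‖ ≤ _
    rw [add_sub_cancel_left, norm_mul, norm_p_pow, one_mul]
    refine (mul_le_of_le_one_right (by positivity) (PadicInt.norm_le_one _)).trans ?_
    exact pow_le_pow_of_le_one (by positivity) (inv_le_one_of_one_le₀ hp1.le) (by omega)
  choose l hl using hconv
  have hlim : Tendsto s atTop (𝓝 (Matrix.of l)) := tendsto_matrix hl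
  -- the limit is close to `a`
  set C' : Submodule ℤ_[p] (Matrix (Fin N) (Fin N) ℤ_[p]) :=
    (Subalgebra.toSubmodule (Algebra.adjoin ℤ_[p] {a})).map
      (LinearMap.lsmul ℤ_[p] _ ((p : ℤ_[p]) ^ (m - 1))) with hC'
  have hsub : ∀ n, s n - a ∈ C' := by
    intro n
    induction n with
    | zero => rw [hs0, sub_self]; exact C'.zero_mem
    | succ n ih =>
      obtain ⟨y, hyC, hy⟩ := hstep n
      rw [hy, show s n + (p : ℤ_[p]) ^ (m + n - 1) • y - a =
        (s n - a) + (p : ℤ_[p]) ^ (m + n - 1) • y by abel]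
      refine C'.add_mem ih ⟨(p : ℤ_[p]) ^ n • y, Subalgebra.smul_mem _ hyC _, ?_⟩
      rw [LinearMap.lsmul_apply, smul_smul, ← pow_add]
      congr 2
      omega
  have hmem : Matrix.of l - a ∈ C' := by
    have hcl := isClosed_submodule C'
    exact hcl.mem_of_tendsto (hlim.sub_const a) (Eventually.of_forall hsub)
  obtain ⟨y, hyC, hy⟩ := hmem
  refine ⟨y, hyC, fun n => (p : ℤ_[p]) ^ m • s n, ?_, ?_⟩
  · intro n
    rw [hspow, smul_smul, ← pow_add, add_comm n m]
  · have h1 : a + (p : ℤ_[p]) ^ (m - 1) • y = Matrix.of l := by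
      rw [LinearMap.lsmul_apply] at hy
      rw [hy]
      abel
    rw [h1]
    exact hlim.const_smul _

theorem IsLog.unique {g X Y : Matrix (Fin N) (Fin N) ℤ_[p]} (hX : IsLog g X) (hY : IsLog g Y) :
    X = Y := by
  obtain ⟨x, hx, hxX⟩ := hX
  obtain ⟨y, hy, hyY⟩ := hY
  have hp0 : (p : ℤ_[p]) ≠ 0 := by exact_mod_cast (Fact.out : p.Prime).ne_zero
  have : x = y := by
    funext n
    have h1 := (hx n).symm.trans (hy n)
    exact smul_right_injective _ (pow_ne_zero n hp0) (add_left_cancel h1)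
  rw [this] at hxX
  exact tendsto_nhds_unique hxX hyY

theorem IsLog.conj {g X h : Matrix (Fin N) (Fin N) ℤ_[p]} (hX : IsLog g X)
    {h' : Matrix (Fin N) (Fin N) ℤ_[p]} (hh' : h * h' = 1) :
    IsLog (h * g * h') (h * X * h') := by
  obtain ⟨x, hx, hxX⟩ := hX
  have hh : h' * h = 1 := mul_eq_one_comm.1 hh'
  refine ⟨fun n => h * x n * h', ?_, ?_⟩
  · intro n
    have h1 : ∀ k : ℕ, (h * g * h') ^ k = h * g ^ k * h' := by
      intro k
      induction k with
      | zero => rw [pow_zero, pow_zero, mul_one, hh']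
      | succ k ih =>
        rw [pow_succ, ih, pow_succ]
        calc h * g ^ k * h' * (h * g * h') = h * g ^ k * (h' * h) * g * h' := by
              simp only [mul_assoc]
          _ = _ := by rw [hh]; simp only [mul_assoc, mul_one, one_mul]
    rw [h1, hx, mul_add, add_mul, mul_one, hh', mul_smul_comm, smul_mul_assoc]
  · exact (((continuous_const.matrix_mul continuous_id).matrix_mul continuous_const).tendsto
      X).comp hxX

theorem IsLog.pow {g X : Matrix (Fin N) (Fin N) ℤ_[p]} (hX : IsLog g X) (k : ℕ) :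
    IsLog (g ^ k) ((k : ℤ_[p]) • X) := by
  obtain ⟨x, hx, hxX⟩ := hX
  have h1 : ∀ n, ∃ c : Matrix (Fin N) (Fin N) ℤ_[p], (g ^ k) ^ (p ^ n) =
      1 + (p : ℤ_[p]) ^ n • ((k : ℤ_[p]) • x n + (p : ℤ_[p]) ^ n • c) := by
    intro n
    obtain ⟨c, -, hc⟩ := one_add_pow (p := p) ((p : ℤ_[p]) ^ n • x n) k
    refine ⟨x n * x n * c, ?_⟩
    rw [← pow_mul, mul_comm k, pow_mul, hx, hc, smul_add, smul_smul, smul_smul, smul_smul,
      mul_comm (k : ℤ_[p]), add_assoc]
    congr 2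
    simp only [smul_mul_assoc, mul_smul_comm, smul_smul, mul_assoc]
  choose c hc using h1
  refine ⟨_, hc, ?_⟩
  have h2 := (hxX.const_smul (k : ℤ_[p])).add (tendsto_p_smul c)
  rw [add_zero] at h2
  exact h2

/-- The logarithm of a product of powers: `log (g ^ (p ^ n) h ^ (p ^ n)) = p ^ n z n` with
`z n → X + Y`. -/
theorem IsLog.mul {g h X Y : Matrix (Fin N) (Fin N) ℤ_[p]} (hX : IsLog g X) (hY : IsLog h Y)
    : ∃ z : ℕ → Matrix (Fin N) (Fin N) ℤ_[p], Tendsto z atTop (𝓝 (X + Y)) ∧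
      ∀ n, 2 ≤ n → IsLog (g ^ (p ^ n) * h ^ (p ^ n)) ((p : ℤ_[p]) ^ n • z n) := by
  obtain ⟨x, hx, hxX⟩ := hX
  obtain ⟨y, hy, hyY⟩ := hY
  set w : ℕ → Matrix (Fin N) (Fin N) ℤ_[p] := fun n => x n + y n + (p : ℤ_[p]) ^ n • (x n * y n)
    with hw
  have hprod : ∀ n, g ^ (p ^ n) * h ^ (p ^ n) = 1 + (p : ℤ_[p]) ^ n • w n := by
    intro n
    rw [hx, hy, hw]
    simp only [mul_add, add_mul, mul_one, one_mul, smul_mul_assoc, mul_smul_comm, smul_add,
      smul_smul]
    abel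
  have hwlim : Tendsto w atTop (𝓝 (X + Y)) := by
    have h2 := (hxX.add hyY).add (tendsto_p_smul fun n => x n * y n)
    rw [add_zero] at h2
    exact h2
  have hlog : ∀ n, ∃ c : Matrix (Fin N) (Fin N) ℤ_[p], 2 ≤ n →
      IsLog (g ^ (p ^ n) * h ^ (p ^ n)) ((p : ℤ_[p]) ^ n • (w n + (p : ℤ_[p]) ^ (n - 1) • c)) := by
    intro n
    by_cases hn : 2 ≤ n
    · obtain ⟨c, -, hc⟩ := exists_log (w n) n hn
      rw [← hprod] at hc
      exact ⟨c, fun _ => hc⟩
    · exact ⟨0, fun h => absurd h hn⟩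
  choose c hc using hlog
  refine ⟨fun n => w n + (p : ℤ_[p]) ^ (n - 1) • c n, ?_, hc⟩
  have h3 : Tendsto (fun n => (p : ℤ_[p]) ^ (n - 1) • c n) atTop (𝓝 0) := by
    rw [← tendsto_add_atTop_iff_nat 1]
    exact tendsto_p_smul fun n => c (n + 1)
  have h4 := hwlim.add h3
  rwa [add_zero] at h4

/-- the commutator with a logarithm -/
theorem IsLog.tendsto_bracket {g h X Y : Matrix (Fin N) (Fin N) ℤ_[p]} (hX : IsLog g X)
    (hg : ∃ g', g * g' = 1) :
    ∃ (y b : ℕ → Matrix (Fin N) (Fin N) ℤ_[p]),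
      (∀ n, ∃ g', g ^ (p ^ n) * g' = 1 ∧ y n = g ^ (p ^ n) * Y * g') ∧
      (∀ n, y n - Y = (p : ℤ_[p]) ^ n • b n) ∧ Tendsto b atTop (𝓝 (X * Y - Y * X)) := by
  obtain ⟨x, hx, hxX⟩ := hX
  obtain ⟨g', hgg'⟩ := hg
  have hg'g : g' * g = 1 := mul_eq_one_comm.1 hgg'
  have hpow : ∀ k : ℕ, g ^ k * g' ^ k = 1 := by
    intro k
    have hcomm : Commute g g' := by rw [Commute, SemiconjBy, hgg', hg'g]
    rw [← hcomm.mul_pow, hgg', one_pow]
  set y : ℕ → Matrix (Fin N) (Fin N) ℤ_[p] := fun n => g ^ (p ^ n) * Y * g' ^ (p ^ n) with hy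
  have hyg : ∀ n, y n * g ^ (p ^ n) = g ^ (p ^ n) * Y := by
    intro n
    rw [hy]
    change g ^ (p ^ n) * Y * g' ^ (p ^ n) * g ^ (p ^ n) = _
    rw [mul_assoc, mul_eq_one_comm.1 (hpow _), mul_one]
  have hb : ∀ n, y n - Y = (p : ℤ_[p]) ^ n • (x n * Y - y n * x n) := by
    intro n
    have h1 := hyg n
    rw [hx, mul_add, add_mul, mul_one, one_mul, mul_smul_comm, smul_mul_assoc] at h1
    rw [smul_sub, sub_eq_sub_iff_add_eq_add, h1]
    abel
  have hylim : Tendsto y atTop (𝓝 Y) := by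
    have h2 := (tendsto_p_smul fun n => x n * Y - y n * x n).add_const Y
    rw [zero_add] at h2
    refine h2.congr fun n => ?_
    rw [← hb n]
    abel
  refine ⟨y, fun n => x n * Y - y n * x n, fun n => ⟨g' ^ (p ^ n), hpow _, rfl⟩, hb, ?_⟩
  have h3 : Tendsto (fun n => x n * Y) atTop (𝓝 (X * Y)) := hxX.mul_const Y
  have h4 : Tendsto (fun n => y n * x n) atTop (𝓝 (Y * X)) := hylim.mul hxX
  exact h3.sub h4

end Top

end Pool.Agent.H850.TF
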