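import Pool.Agent.H850.TF.Killing

/-!
# Two elements generate the enveloping algebra of a completely reducible linear Lie algebra
-/

set_option autoImplicit false
set_option linter.unusedSectionVars false

namespace Pool.Agent.H850.TF

open LieAlgebra LieModule

section Ad

variable {K B : Type*} [Field K] [Ring B] [Algebra K B]

/-- eigenvectors of `ad x` can be separated inside a subalgebra -/
theorem mem_of_sum_mem (A : Subalgebra K B) {ι : Type*} [Fintype ι] (x : B) (hx : x ∈ A)
    (e : ι → B) (a : ι → K) (ha : Function.Injective a) (he : ∀ i, x * e i - e i * x = a i • e i)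
    (hsum : ∑ i, e i ∈ A) (i : ι) : e i ∈ A := by
  classical
  let ad : B →ₗ[K] B := LinearMap.mulLeft K x - LinearMap.mulRight K x
  have had : ∀ b, ad b = x * b - b * x := fun b => rfl
  have hstab : ∀ (P : Polynomial K) (b : B), b ∈ A → Polynomial.aeval ad P b ∈ A := by
    intro P
    induction P using Polynomial.induction_on' with
    | add P Q hP hQ =>
      intro b hb
      rw [map_add]
      exact A.add_mem (hP b hb) (hQ b hb)
    | monomial n c =>
      intro b hb
      rw [Polynomial.aeval_monomial]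
      have h1 : ∀ n : ℕ, (ad ^ n) b ∈ A := by
        intro n
        induction n with
        | zero => simpa using hb
        | succ n ih =>
          rw [pow_succ', Module.End.mul_apply, had]
          exact A.sub_mem (A.mul_mem hx ih) (A.mul_mem ih hx)
      exact A.smul_mem (h1 n) c
  have heig : ∀ (P : Polynomial K) (j : ι), Polynomial.aeval ad P (e j) = P.eval (a j) • e j := by
    intro P j
    induction P using Polynomial.induction_on' with
    | add P Q hP hQ =>
      rw [map_add, LinearMap.add_apply, hP, hQ, Polynomial.eval_add, add_smul]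
    | monomial n c =>
      rw [Polynomial.aeval_monomial, Polynomial.eval_monomial]
      have h1 : ∀ n : ℕ, (ad ^ n) (e j) = (a j) ^ n • e j := by
        intro n
        induction n with
        | zero => simp
        | succ n ih =>
          rw [pow_succ', Module.End.mul_apply, ih, map_smul, had, he, smul_smul, pow_succ]
      rw [Module.End.mul_apply, h1, mul_smul]
      rfl
  have key := hstab (Lagrange.basis Finset.univ a i) _ hsum
  rw [map_sum, Finset.sum_eq_single i] at key
  · rw [heig, Lagrange.eval_basis_self ha.injOn (Finset.mem_univ i), one_smul] at key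
    exact key
  · intro j _ hj
    rw [heig, Lagrange.eval_basis_of_ne hj.symm (Finset.mem_univ j), zero_smul]
  · intro h
    exact absurd (Finset.mem_univ i) h

end Ad

section Red

variable (K : Type) (L : Type) (M : Type) [Field K] [IsAlgClosed K] [CharZero K]
  [LieRing L] [LieAlgebra K L]
  [Module.Finite K L] [AddCommGroup M] [Module K M] [Module.Finite K M] [LieRingModule L M]
  [LieModule K L M]

theorem toEnd_lie_eq (x y : L) :
    toEnd K L M ⁅x, y⁆ = toEnd K L M x * toEnd K L M y - toEnd K L M y * toEnd K L M x := by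
  refine LinearMap.ext fun m => ?_
  change ⁅⁅x, y⁆, m⁆ = ⁅x, ⁅y, m⁆⁆ - ⁅y, ⁅x, m⁆⁆
  rw [lie_lie]

/-- the eigenspaces of the radical span -/
theorem iSup_weight_eq_top [ComplementedLattice (LieSubmodule K L M)] :
    (⨆ χ : (radical K L) → K, weightSpaceOfIsLieTower K M χ : LieSubmodule K L M) = ⊤ := by
  obtain ⟨C, hC⟩ := exists_isCompl
    (⨆ χ : (radical K L) → K, weightSpaceOfIsLieTower K M χ : LieSubmodule K L M)
  by_contra hne
  have hC0 : C ≠ ⊥ := by
    intro h
    apply hne
    have := hC.sup_eq_top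
    rwa [h, sup_bot_eq] at this
  have hnt : Nontrivial C := by
    rw [LieSubmodule.nontrivial_iff_ne_bot]
    exact hC0
  obtain ⟨χ, hχ⟩ := exists_nontrivial_weightSpace_of_isSolvable K (radical K L) C
  obtain ⟨⟨c, hc⟩, hc0⟩ := exists_ne (0 : weightSpace C χ)
  rw [mem_weightSpace] at hc
  have h1 : (c : M) ∈ (⨆ χ : (radical K L) → K, weightSpaceOfIsLieTower K M χ :
      LieSubmodule K L M) := by
    have h2 : (c : M) ∈ weightSpaceOfIsLieTower K M (L := L) (χ : (radical K L) → K) := by
      change (c : M) ∈ weightSpace M (χ : (radical K L) → K)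
      rw [mem_weightSpace]
      intro r
      have h3 := congrArg (fun w : C => (w : M)) (hc r)
      simpa using h3
    exact (le_iSup (fun χ : (radical K L) → K => weightSpaceOfIsLieTower K M χ) χ) h2
  have h4 : (c : M) ∈ (⊥ : LieSubmodule K L M) := by
    rw [← hC.inf_eq_bot]
    exact ⟨h1, c.2⟩
  apply hc0
  have h5 : c = 0 := by
    apply Subtype.ext
    simpa using h4
  apply Subtype.ext
  exact h5

theorem lie_radical_eq_zero [ComplementedLattice (LieSubmodule K L M)] [IsFaithful K L M]
    (r : radical K L) (x : L) : ⁅x, (r : L)⁆ = 0 := by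
  have h1 : toEnd K L M ⁅x, (r : L)⁆ = 0 := by
    ext m
    have hm : m ∈ (⨆ χ : (radical K L) → K, weightSpaceOfIsLieTower K M χ : LieSubmodule K L M) := by
      rw [iSup_weight_eq_top]; trivial
    induction hm using LieSubmodule.iSup_induction' with
    | mem χ m hm =>
      have h2 : ∀ m' ∈ weightSpaceOfIsLieTower K M (L := L) χ, ⁅(r : L), m'⁆ = χ r • m' := by
        intro m' hm'
        change m' ∈ weightSpace M χ at hm'
        rw [mem_weightSpace] at hm'
        exact hm' r
      have h3 : ⁅x, m⁆ ∈ weightSpaceOfIsLieTower K M (L := L) χ := LieSubmodule.lie_mem _ hm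
      rw [toEnd_apply_apply, lie_lie, h2 m hm, lie_smul, h2 _ h3, sub_self]
      rfl
    | zero => simp
    | add m m' _ _ h h' => rw [map_add, map_add, h, h']
  rwa [toEnd_eq_zero_iff] at h1

theorem hasTrivialRadical_quotient [ComplementedLattice (LieSubmodule K L M)] [IsFaithful K L M] :
    HasTrivialRadical K (L ⧸ radical K L) := by
  rw [hasTrivialRadical_iff_no_abelian_ideals]
  intro I hI
  set π := LieSubmodule.Quotient.mk' (radical K L) with hπ
  have hab : ∀ x y : L, π x ∈ I → π y ∈ I → ⁅x, y⁆ ∈ radical K L := by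
    intro x y hx hy
    have h1 : ⁅(⟨π x, hx⟩ : I), (⟨π y, hy⟩ : I)⁆ = 0 := trivial_lie_zero I I _ _
    have h2 : ⁅π x, π y⁆ = 0 := congrArg Subtype.val h1
    have h3 : π ⁅x, y⁆ = 0 := h2
    exact (LieSubmodule.Quotient.mk_eq_zero (radical K L)).1 h3
  -- the preimage is a solvable ideal
  let J : LieIdeal K L :=
    { carrier := {x | π x ∈ I}
      add_mem' := fun {x y} hx hy => by
        change π (x + y) ∈ I
        rw [map_add]
        exact I.add_mem hx hy
      zero_mem' := by
        change π 0 ∈ I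
        rw [map_zero]
        exact I.zero_mem
      smul_mem' := fun c x hx => by
        change π (c • x) ∈ I
        rw [map_smul]
        exact I.smul_mem c hx
      lie_mem := fun {x y} hy => by
        change π ⁅x, y⁆ ∈ I
        have h1 : π ⁅x, y⁆ = ⁅π x, π y⁆ := rfl
        rw [h1]
        exact I.lie_mem hy }
  have hJ1 : ⁅J, J⁆ ≤ radical K L := by
    rw [LieSubmodule.lie_le_iff]
    intro x hx y hy
    exact hab x y hx hy
  have hJ2 : ⁅⁅J, J⁆, ⁅J, J⁆⁆ = ⊥ := by
    rw [eq_bot_iff, LieSubmodule.lie_le_iff]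
    intro x hx y hy
    rw [lie_radical_eq_zero K L M ⟨y, hJ1 hy⟩ x]
    exact LieSubmodule.zero_mem _
  have hJs : IsSolvable J := by
    apply IsSolvable.mk (R := K) (k := 2)
    rw [LieIdeal.derivedSeries_eq_bot_iff]
    rw [derivedSeriesOfIdeal_succ, derivedSeriesOfIdeal_succ, derivedSeriesOfIdeal_zero]
    exact hJ2
  have hJr : J ≤ radical K L := (LieIdeal.solvable_iff_le_radical K L J).1 hJs
  rw [eq_bot_iff]
  intro y hy
  obtain ⟨x, rfl⟩ := LieSubmodule.Quotient.surjective_mk' (radical K L) y
  have hx : x ∈ radical K L := hJr hy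
  rw [LieSubmodule.mem_bot]
  exact (LieSubmodule.Quotient.mk_eq_zero (radical K L)).2 hx

/-- an element of the radical which generates the algebra generated by the radical -/
theorem exists_generic_radical [ComplementedLattice (LieSubmodule K L M)] [IsFaithful K L M] :
    ∃ z : L, z ∈ radical K L ∧ ∀ z' ∈ radical K L,
      toEnd K L M z' ∈ Algebra.adjoin K {toEnd K L M z} := by
  classical
  -- finitely many weights suffice
  obtain ⟨F, hF⟩ : ∃ F : Finset ((radical K L) → K),
      (⨆ χ ∈ F, (weightSpaceOfIsLieTower K M (L := L) χ).toSubmodule : Submodule K M) = ⊤ := by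
    have h1 : (⨆ χ : (radical K L) → K, (weightSpaceOfIsLieTower K M (L := L) χ).toSubmodule :
        Submodule K M) = ⊤ := by
      rw [← LieSubmodule.iSup_toSubmodule, iSup_weight_eq_top]
      rfl
    have h2 : IsCompactElement (⊤ : Submodule K M) := by
      rw [← Submodule.fg_iff_compact]
      exact Module.Finite.fg_top
    obtain ⟨F, hF⟩ := (CompleteLattice.isCompactElement_iff_exists_le_iSup_of_le_iSup _).1 h2 _
      _ h1.ge
    rw [Finset.sup_eq_iSup] at hF
    exact ⟨F, top_le_iff.1 hF⟩
  -- a weight with a nonzero weight vector is linear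
  have hlin : ∀ χ : (radical K L) → K, (weightSpaceOfIsLieTower K M (L := L) χ).toSubmodule ≠ ⊥ →
      ∃ f : Module.Dual K (radical K L), ∀ r, f r = χ r := by
    intro χ hχ
    obtain ⟨m, hm, hm0⟩ := (Submodule.ne_bot_iff _).1 hχ
    have hm' : ∀ r : radical K L, ⁅(r : L), m⁆ = χ r • m := by
      change m ∈ weightSpace M χ at hm
      rw [mem_weightSpace] at hm
      exact hm
    refine ⟨{ toFun := χ, map_add' := ?_, map_smul' := ?_ }, fun _ => rfl⟩
    · intro r r'
      have h1 : χ (r + r') • m = (χ r + χ r') • m := by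
        rw [← hm', add_smul, ← hm' r, ← hm' r', ← add_lie]
        rfl
      exact smul_left_injective K hm0 h1
    · intro c r
      have h1 : χ (c • r) • m = (c * χ r) • m := by
        rw [← hm', mul_smul, ← hm' r, ← smul_lie]
        rfl
      exact smul_left_injective K hm0 h1
  -- only keep the nontrivial weights
  set F' := F.filter (fun χ => (weightSpaceOfIsLieTower K M (L := L) χ).toSubmodule ≠ ⊥) with hF'
  have hF'top : (⨆ χ ∈ F', (weightSpaceOfIsLieTower K M (L := L) χ).toSubmodule : Submodule K M)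
      = ⊤ := by
    rw [eq_top_iff, ← hF]
    refine iSup₂_le fun χ hχ => ?_
    by_cases h : (weightSpaceOfIsLieTower K M (L := L) χ).toSubmodule = ⊥
    · rw [h]; exact bot_le
    · exact le_iSup₂_of_le χ (Finset.mem_filter.2 ⟨hχ, h⟩) le_rfl
  have hlin' : ∀ χ : F', ∃ f : Module.Dual K (radical K L), ∀ r, f r = χ.1 r := fun χ =>
    hlin χ.1 (Finset.mem_filter.1 χ.2).2
  choose f hf using hlin'
  obtain ⟨z, hz⟩ := Module.Dual.exists_forall_ne_zero_of_forall_exists (K := K)
    (M := radical K L) (ι := {q : F' × F' // q.1 ≠ q.2}) (fun q => f q.1.1 - f q.1.2) (by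
      rintro ⟨⟨χ, χ'⟩, hne⟩
      by_contra hc
      push Not at hc
      apply hne
      apply Subtype.ext
      funext r
      have := hc r
      simpa [sub_eq_zero, hf] using this)
  have hinj : Set.InjOn (fun χ : F' => χ.1 z) (Finset.univ : Finset F') := by
    intro χ _ χ' _ h
    by_contra hne
    have h1 := hz ⟨(χ, χ'), hne⟩
    apply h1
    have h2 : χ.1 z = χ'.1 z := h
    simp [hf, h2]
  refine ⟨z, z.2, ?_⟩
  intro z' hz'
  set P := Lagrange.interpolate Finset.univ (fun χ : F' => χ.1 z) (fun χ : F' => χ.1 ⟨z', hz'⟩)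
    with hP
  have hval : ∀ χ : F', P.eval (χ.1 z) = χ.1 ⟨z', hz'⟩ := fun χ =>
    Lagrange.eval_interpolate_at_node _ hinj (Finset.mem_univ χ)
  have hmain : toEnd K L M z' = Polynomial.aeval (toEnd K L M (z : L)) P := by
    apply LinearMap.ext
    intro m
    have hm : m ∈ (⨆ χ ∈ F', (weightSpaceOfIsLieTower K M (L := L) χ).toSubmodule :
        Submodule K M) := by
      rw [hF'top]; trivial
    have hle : (⨆ χ ∈ F', (weightSpaceOfIsLieTower K M (L := L) χ).toSubmodule : Submodule K M) ≤
        LinearMap.eqLocus (toEnd K L M z') (Polynomial.aeval (toEnd K L M (z : L)) P) := by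
      refine iSup₂_le fun χ hχ => ?_
      intro m hm
      rw [LinearMap.mem_eqLocus]
      have hm' : ∀ r : radical K L, ⁅(r : L), m⁆ = χ r • m := by
        change m ∈ weightSpace M χ at hm
        rw [mem_weightSpace] at hm
        exact hm
      have h1 : toEnd K L M z' m = χ ⟨z', hz'⟩ • m := hm' ⟨z', hz'⟩
      rw [h1]
      have h2 : ∀ Q : Polynomial K, Polynomial.aeval (toEnd K L M (z : L)) Q m = Q.eval (χ z) • m := by
        intro Q
        induction Q using Polynomial.induction_on' with
        | add P Q hP hQ =>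
          rw [map_add, LinearMap.add_apply, hP, hQ, Polynomial.eval_add, add_smul]
        | monomial n c =>
          rw [Polynomial.aeval_monomial, Polynomial.eval_monomial]
          have h1 : ∀ n : ℕ, ((toEnd K L M (z : L)) ^ n) m = (χ z) ^ n • m := by
            intro n
            induction n with
            | zero => simp
            | succ n ih =>
              rw [pow_succ', Module.End.mul_apply, ih, map_smul]
              have h3 : toEnd K L M (z : L) m = χ z • m := hm' z
              rw [h3, smul_smul, pow_succ]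
          rw [Module.End.mul_apply, h1, mul_smul]
          rfl
      rw [h2, hval ⟨χ, hχ⟩]
    exact LinearMap.mem_eqLocus.1 (hle hm)
  rw [hmain]
  exact Polynomial.aeval_mem_adjoin_singleton K _

/-- **Two generators.** -/
theorem exists_two_generators [ComplementedLattice (LieSubmodule K L M)] [IsFaithful K L M] :
    ∃ X Y : L, ∀ Z : L, toEnd K L M Z ∈ Algebra.adjoin K {toEnd K L M X, toEnd K L M Y} := by
  classical
  have := hasTrivialRadical_quotient K L M
  obtain ⟨ι, _, X₀, e, a, ha, ha0, he, hspan⟩ := exists_root_vectors K (L ⧸ radical K L)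
  obtain ⟨z, hz, hzgen⟩ := exists_generic_radical K L M
  set π := LieSubmodule.Quotient.mk' (radical K L) with hπ
  have hπlie : ∀ x y : L, π ⁅x, y⁆ = ⁅π x, π y⁆ := fun x y => rfl
  have hπ0 : ∀ x : L, π x = 0 → x ∈ radical K L := fun x hx =>
    (LieSubmodule.Quotient.mk_eq_zero (radical K L)).1 hx
  have hcen : ∀ r ∈ radical K L, ∀ x : L, ⁅x, r⁆ = 0 := fun r hr x =>
    lie_radical_eq_zero K L M ⟨r, hr⟩ x
  have hsurj : ∀ w : L ⧸ radical K L, ∃ x : L, π x = w := LieSubmodule.Quotient.surjective_mk' _
  obtain ⟨X₁, hX₁⟩ := hsurj X₀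
  choose e' he' using fun i => hsurj (e i)
  have hr : ∀ i, ⁅X₁, e' i⁆ - a i • e' i ∈ radical K L := by
    intro i
    apply hπ0
    rw [map_sub, map_smul, hπlie, hX₁, he', he, sub_self]
  set E : ι → L := fun i => e' i + (a i)⁻¹ • (⁅X₁, e' i⁆ - a i • e' i) with hE
  have hEX : ∀ i, ⁅X₁, E i⁆ = a i • E i := by
    intro i
    rw [hE]
    simp only
    rw [lie_add, lie_smul, hcen _ (hr i), smul_zero, add_zero, smul_add, smul_smul,
      mul_inv_cancel₀ (ha0 i), one_smul]
    abel
  have hEπ : ∀ i, π (E i) = e i := by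
    intro i
    rw [hE]
    simp only
    rw [map_add, map_smul, he']
    have : π (⁅X₁, e' i⁆ - a i • e' i) = 0 :=
      (LieSubmodule.Quotient.mk_eq_zero (radical K L)).2 (hr i)
    rw [this, smul_zero, add_zero]
  set T := LieSubalgebra.lieSpan K L (Set.range E) with hT
  have hlift : ∀ w : L ⧸ radical K L, ∃ t ∈ T, π t = w := by
    intro w
    have hw : w ∈ LieSubalgebra.lieSpan K (L ⧸ radical K L) (Set.range e) := by
      rw [hspan]; trivial
    induction hw using LieSubalgebra.lieSpan_induction with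
    | mem w hw =>
      obtain ⟨i, rfl⟩ := hw
      exact ⟨E i, LieSubalgebra.subset_lieSpan ⟨i, rfl⟩, hEπ i⟩
    | zero => exact ⟨0, T.zero_mem, map_zero _⟩
    | add x y _ _ hx hy =>
      obtain ⟨t, ht, rfl⟩ := hx
      obtain ⟨t', ht', rfl⟩ := hy
      exact ⟨t + t', T.add_mem ht ht', map_add _ _ _⟩
    | smul c x _ hx =>
      obtain ⟨t, ht, rfl⟩ := hx
      exact ⟨c • t, T.smul_mem c ht, map_smul _ _ _⟩
    | lie x y _ _ hx hy =>
      obtain ⟨t, ht, rfl⟩ := hx
      obtain ⟨t', ht', rfl⟩ := hy
      exact ⟨⁅t, t'⁆, T.lie_mem ht ht', hπlie _ _⟩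
  have hdec : ∀ Z : L, ∃ t ∈ T, Z - t ∈ radical K L := by
    intro Z
    obtain ⟨t, ht, hπt⟩ := hlift (π Z)
    exact ⟨t, ht, hπ0 _ (by rw [map_sub, hπt, sub_self])⟩
  obtain ⟨t₁, ht₁, hr₁⟩ := hdec X₁
  have hbr : ∀ i, ⁅t₁ + z, E i⁆ = a i • E i := by
    intro i
    have h1 : t₁ + z = X₁ - (X₁ - t₁) + z := by abel
    have h2 : ⁅(X₁ - t₁), E i⁆ = 0 := by rw [← lie_skew, hcen _ hr₁, neg_zero]
    have h3 : ⁅z, E i⁆ = 0 := by rw [← lie_skew, hcen _ hz, neg_zero]
    rw [h1, add_lie, sub_lie, h2, h3, sub_zero, add_zero, hEX]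
  refine ⟨t₁ + z, ∑ i, E i, ?_⟩
  set A := Algebra.adjoin K {toEnd K L M (t₁ + z), toEnd K L M (∑ i, E i)} with hA
  have hXA : toEnd K L M (t₁ + z) ∈ A := Algebra.subset_adjoin (Set.mem_insert _ _)
  have hYA : toEnd K L M (∑ i, E i) ∈ A :=
    Algebra.subset_adjoin (Set.mem_insert_of_mem _ rfl)
  have hEA : ∀ i, toEnd K L M (E i) ∈ A := by
    apply mem_of_sum_mem A (toEnd K L M (t₁ + z)) hXA (fun i => toEnd K L M (E i)) a ha
    · intro i
      have h1 := congrArg (toEnd K L M) (hbr i)
      rw [toEnd_lie_eq, map_smul] at h1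
      exact h1
    · rw [← map_sum]
      exact hYA
  have hTA : ∀ t ∈ T, toEnd K L M t ∈ A := by
    intro t ht
    induction ht using LieSubalgebra.lieSpan_induction with
    | mem w hw =>
      obtain ⟨i, rfl⟩ := hw
      exact hEA i
    | zero => rw [map_zero]; exact A.zero_mem
    | add x y _ _ hx hy => rw [map_add]; exact A.add_mem hx hy
    | smul c x _ hx => rw [map_smul]; exact A.smul_mem hx c
    | lie x y _ _ hx hy =>
      rw [toEnd_lie_eq]
      exact A.sub_mem (A.mul_mem hx hy) (A.mul_mem hy hx)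
  have hzA : toEnd K L M z ∈ A := by
    have h1 : toEnd K L M z = toEnd K L M (t₁ + z) - toEnd K L M t₁ := by
      rw [map_add]; abel
    rw [h1]
    exact A.sub_mem hXA (hTA t₁ ht₁)
  have hRA : ∀ r ∈ radical K L, toEnd K L M r ∈ A := by
    intro r hr
    have h1 := hzgen r hr
    have h2 : Algebra.adjoin K {toEnd K L M z} ≤ A := by
      apply Algebra.adjoin_le
      intro w hw
      rw [Set.mem_singleton_iff] at hw
      rw [hw]
      exact hzA
    exact h2 h1
  intro Z
  obtain ⟨t, ht, hr⟩ := hdec Z
  have h1 : toEnd K L M Z = toEnd K L M t + toEnd K L M (Z - t) := by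
    rw [map_sub]; abel
  rw [h1]
  exact A.add_mem (hTA t ht) (hRA _ hr)

end Red

end Pool.Agent.H850.TF
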