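import Pool.Agent.H850.TF.Density

/-!
# Words in two matrices
-/

set_option autoImplicit false
set_option linter.unusedSectionVars false

namespace Pool.Agent.H850.TF

open MvPolynomial

variable {N : ℕ}

/-- the value of a word in two elements of a ring -/
def wd {R : Type*} [Ring R] (X Y : R) (l : List (Fin 2)) : R :=
  (l.map fun k => if k = 0 then X else Y).prod

theorem wd_map {R S : Type*} [Ring R] [Ring S] (f : R →+* S) (X Y : R) (l : List (Fin 2)) :
    f (wd X Y l) = wd (f X) (f Y) l := by
  unfold wd
  rw [map_list_prod, List.map_map]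
  congr 1
  refine List.map_congr_left fun k _ => ?_
  simp only [Function.comp]
  split_ifs <;> rfl

theorem wd_mem {K R : Type*} [Field K] [Ring R] [Algebra K R] (X Y : R) (l : List (Fin 2)) :
    wd X Y l ∈ Algebra.adjoin K {X, Y} := by
  unfold wd
  apply Subalgebra.list_prod_mem
  intro x hx
  obtain ⟨k, -, rfl⟩ := List.mem_map.1 hx
  split_ifs
  · exact Algebra.subset_adjoin (Set.mem_insert _ _)
  · exact Algebra.subset_adjoin (Set.mem_insert_of_mem _ rfl)

theorem adjoin_pair_eq_span (K : Type*) {R : Type*} [Field K] [Ring R] [Algebra K R] (X Y : R) :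
    Subalgebra.toSubmodule (Algebra.adjoin K {X, Y}) = Submodule.span K (Set.range (wd X Y)) := by
  apply le_antisymm
  · rw [Algebra.adjoin_eq_span]
    apply Submodule.span_mono
    intro x hx
    obtain ⟨l, hl, rfl⟩ := Submonoid.exists_list_of_mem_closure hx
    clear hx
    induction l with
    | nil => exact ⟨[], rfl⟩
    | cons a l ih =>
      obtain ⟨l', hl'⟩ := ih (fun y hy => hl y (List.mem_cons_of_mem _ hy))
      have ha : a = X ∨ a = Y := by
        have := hl a List.mem_cons_self
        simpa using this
      rcases ha with rfl | rfl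
      · refine ⟨0 :: l', ?_⟩
        rw [List.prod_cons, ← hl']
        simp [wd]
      · refine ⟨1 :: l', ?_⟩
        rw [List.prod_cons, ← hl']
        simp [wd]
  · rw [Submodule.span_le]
    rintro _ ⟨l, rfl⟩
    exact wd_mem X Y l

/-- a nonzero minor -/
theorem exists_positions {F : Type*} [Field F] {D : ℕ} {ι : Type*} [Fintype ι]
    (v : Fin D → ι → F) (hv : LinearIndependent F v) :
    ∃ e : Fin D → ι, (Matrix.of fun i j => v i (e j)).det ≠ 0 := by
  classical
  let A : Matrix (Fin D) ι F := Matrix.of v
  -- the columns span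
  have hcol : Submodule.span F (Set.range fun j : ι => (fun i : Fin D => v i j)) = ⊤ := by
    by_contra hne
    obtain ⟨f, hf0, hf⟩ := Submodule.exists_le_ker_of_lt_top _ (lt_top_iff_ne_top.2 hne)
    apply hf0
    -- the coefficients of `f` give a linear relation between the rows
    have hrel : ∑ i, f (Pi.single i 1) • v i = 0 := by
      funext j
      have h1 : f (fun i => v i j) = 0 := hf (Submodule.subset_span ⟨j, rfl⟩)
      have h2 : (fun i => v i j) = ∑ i, v i j • (Pi.single i (1 : F) : Fin D → F) := by
        funext k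
        simp [Finset.sum_apply, Pi.single_apply]
      rw [h2, map_sum] at h1
      rw [Finset.sum_apply, Pi.zero_apply, ← h1]
      refine Finset.sum_congr rfl fun i _ => ?_
      rw [map_smul, Pi.smul_apply, smul_eq_mul, smul_eq_mul, mul_comm]
    have hz := Fintype.linearIndependent_iff.1 hv _ hrel
    apply LinearMap.ext
    intro x
    have h3 : x = ∑ i, x i • (Pi.single i (1 : F) : Fin D → F) := by
      funext k
      simp [Finset.sum_apply, Pi.single_apply]
    rw [h3, map_sum]
    refine Finset.sum_eq_zero fun i _ => ?_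
    rw [map_smul, hz i, smul_zero]
  obtain ⟨κ, a, -, ha, hli⟩ := exists_linearIndependent' F fun j : ι => (fun i : Fin D => v i j)
  rw [hcol] at ha
  let b : Module.Basis κ F (Fin D → F) := Module.Basis.mk hli ha.ge
  have : Fintype κ := FiniteDimensional.fintypeBasisIndex b
  have hcard : Fintype.card κ = D := by
    rw [← Module.finrank_eq_card_basis b]
    simp
  let e := (Fintype.equivFinOfCardEq hcard).symm
  refine ⟨fun j => a (e j), ?_⟩
  have hli2 : LinearIndependent F fun j : Fin D => (fun i : Fin D => v i (a (e j))) :=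
    hli.comp e e.injective
  have h4 : IsUnit (Matrix.of fun i j => v i (a (e j))) := by
    rw [← Matrix.linearIndependent_cols_iff_isUnit]
    exact hli2
  rw [Matrix.isUnit_iff_isUnit_det] at h4
  exact h4.ne_zero

theorem linearIndependent_of_minor {F : Type*} [Field F] {D : ℕ} {ι : Type*}
    (v : Fin D → ι → F) (e : Fin D → ι) (h : (Matrix.of fun i j => v i (e j)).det ≠ 0) :
    LinearIndependent F v := by
  have h1 : LinearIndependent F fun i => (fun j => v i (e j)) := by
    have h2 : IsUnit (Matrix.of fun i j => v i (e j)) := by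
      rw [Matrix.isUnit_iff_isUnit_det]
      exact isUnit_iff_ne_zero.2 h
    rw [← Matrix.linearIndependent_rows_iff_isUnit] at h2
    exact h2
  exact LinearIndependent.of_comp (LinearMap.funLeft F F e) h1

/-- the entries of a matrix -/
def ent {F : Type*} (X : Matrix (Fin N) (Fin N) F) : Fin N × Fin N → F := fun q => X q.1 q.2

/-- the minor of the entries of some words -/
def minor {F : Type*} [CommRing F] {D : ℕ} (w : Fin D → List (Fin 2)) (e : Fin D → Fin N × Fin N)
    (X Y : Matrix (Fin N) (Fin N) F) : F :=
  (Matrix.of fun i j => ent (wd X Y (w i)) (e j)).det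

theorem minor_map {F F' : Type*} [CommRing F] [CommRing F'] (f : F →+* F') {D : ℕ}
    (w : Fin D → List (Fin 2)) (e : Fin D → Fin N × Fin N) (X Y : Matrix (Fin N) (Fin N) F) :
    f (minor w e X Y) = minor w e (f.mapMatrix X) (f.mapMatrix Y) := by
  unfold minor
  rw [RingHom.map_det]
  congr 1
  ext i j
  have h := wd_map f.mapMatrix X Y (w i)
  have h2 := congrArg (fun A : Matrix (Fin N) (Fin N) F' => A (e j).1 (e j).2) h
  exact h2

/-- the generic minor -/
noncomputable def genMinor (K : Type*) [CommRing K] {D : ℕ} (w : Fin D → List (Fin 2))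
    (e : Fin D → Fin N × Fin N) : MvPolynomial (Fin 2 × Fin N × Fin N) K :=
  minor w e (Matrix.of fun i j => X ((0 : Fin 2), i, j)) (Matrix.of fun i j => X ((1 : Fin 2), i, j))

theorem aeval_genMinor {K F : Type*} [CommRing K] [CommRing F] [Algebra K F] {D : ℕ}
    (w : Fin D → List (Fin 2)) (e : Fin D → Fin N × Fin N) (A B : Matrix (Fin N) (Fin N) F) :
    aeval (fun q : Fin 2 × Fin N × Fin N => if q.1 = 0 then A q.2.1 q.2.2 else B q.2.1 q.2.2)
      (genMinor K w e) = minor w e A B := by
  unfold genMinor
  let φ : MvPolynomial (Fin 2 × Fin N × Fin N) K →ₐ[K] F :=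
    aeval (fun q : Fin 2 × Fin N × Fin N => if q.1 = 0 then A q.2.1 q.2.2 else B q.2.1 q.2.2)
  have h := minor_map (φ : MvPolynomial (Fin 2 × Fin N × Fin N) K →+* F) w e
    (Matrix.of fun i j => X ((0 : Fin 2), i, j)) (Matrix.of fun i j => X ((1 : Fin 2), i, j))
  refine h.trans ?_
  congr 1
  · ext i j
    simp [φ]
  · ext i j
    simp [φ]

/-- `D` linearly independent words have a nonzero minor -/
theorem exists_minor {F : Type*} [Field F] (X Y : Matrix (Fin N) (Fin N) F) (D : ℕ)
    (hD : D ≤ Module.finrank F (Submodule.span F (Set.range (wd X Y)))) :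
    ∃ (w : Fin D → List (Fin 2)) (e : Fin D → Fin N × Fin N), minor w e X Y ≠ 0 := by
  classical
  obtain ⟨κ, a, -, ha, hli⟩ := exists_linearIndependent' F (wd X Y)
  have hfin : Finite κ := hli.finite
  have : Fintype κ := Fintype.ofFinite κ
  have hcard : D ≤ Fintype.card κ := by
    have h1 := finrank_span_eq_card hli
    rw [ha] at h1
    rw [← h1]
    exact hD
  obtain ⟨g⟩ : Nonempty (Fin D ↪ κ) := by
    rw [Function.Embedding.nonempty_iff_card_le, Fintype.card_fin]
    exact hcard
  have hli2 : LinearIndependent F fun i : Fin D => wd X Y (a (g i)) := hli.comp g g.injective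
  have hli3 : LinearIndependent F fun i : Fin D => ent (wd X Y (a (g i))) := by
    let f : Matrix (Fin N) (Fin N) F →ₗ[F] (Fin N × Fin N → F) :=
      { toFun := ent, map_add' := fun _ _ => rfl, map_smul' := fun _ _ => rfl }
    have hf : LinearMap.ker f = ⊥ := by
      rw [LinearMap.ker_eq_bot]
      intro A B h
      ext i j
      exact congrFun h (i, j)
    exact hli2.map' f hf
  obtain ⟨e, he⟩ := exists_positions _ hli3
  exact ⟨fun i => a (g i), e, he⟩

theorem le_finrank_of_minor {F : Type*} [Field F] (X Y : Matrix (Fin N) (Fin N) F) {D : ℕ}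
    (w : Fin D → List (Fin 2)) (e : Fin D → Fin N × Fin N) (h : minor w e X Y ≠ 0) :
    D ≤ Module.finrank F (Subalgebra.toSubmodule (Algebra.adjoin F {X, Y})) := by
  have h1 := linearIndependent_of_minor (fun i => ent (wd X Y (w i))) e h
  have hli : LinearIndependent F fun i : Fin D => wd X Y (w i) := by
    let f : Matrix (Fin N) (Fin N) F →ₗ[F] (Fin N × Fin N → F) :=
      { toFun := ent, map_add' := fun _ _ => rfl, map_smul' := fun _ _ => rfl }
    exact LinearIndependent.of_comp f h1
  have hli2 : LinearIndependent F fun i : Fin D =>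
      (⟨wd X Y (w i), wd_mem X Y (w i)⟩ : Subalgebra.toSubmodule (Algebra.adjoin F {X, Y})) :=
    LinearIndependent.of_comp (Submodule.subtype _) hli
  have := hli2.fintype_card_le_finrank
  simpa using this

end Pool.Agent.H850.TF
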