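import Pool.Agent.H850.TF.Gal
import Pool.Agent.H850.TF.Reductive
import Pool.Agent.H850.TF.BaseChange
import Pool.Agent.H850.TF.Words

/-!
# Two elements generate the algebra of a small semisimple `p`-adic group
-/

set_option autoImplicit false
set_option linter.unusedSectionVars false

namespace Pool.Agent.H850.TF

open LieAlgebra LieModule

attribute [local instance 100] LieRing.ofAssociativeRing

variable {N : ℕ}

/-- every stable subspace has a stable complement -/
def CR {F : Type} [Field F] (S : Set (Matrix (Fin N) (Fin N) F)) : Prop :=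
  ∀ W : Submodule F (Fin N → F), (∀ A ∈ S, ∀ x ∈ W, A.mulVec x ∈ W) →
    ∃ W' : Submodule F (Fin N → F), (∀ A ∈ S, ∀ x ∈ W', A.mulVec x ∈ W') ∧ IsCompl W W'

theorem stable_adjoin {F : Type} [Field F] {S : Set (Matrix (Fin N) (Fin N) F)}
    {W : Submodule F (Fin N → F)} (h : ∀ A ∈ S, ∀ x ∈ W, A.mulVec x ∈ W) :
    ∀ A ∈ Algebra.adjoin F S, ∀ x ∈ W, A.mulVec x ∈ W := by
  intro A hA
  induction hA using Algebra.adjoin_induction with
  | mem A hA => exact h A hA
  | algebraMap r =>
    intro x hx
    rw [Algebra.algebraMap_eq_smul_one, Matrix.smul_mulVec, Matrix.one_mulVec]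
    exact W.smul_mem r hx
  | add A B _ _ hA hB =>
    intro x hx
    rw [Matrix.add_mulVec]
    exact W.add_mem (hA x hx) (hB x hx)
  | mul A B _ _ hA hB =>
    intro x hx
    rw [← Matrix.mulVec_mulVec]
    exact hA _ (hB x hx)

theorem nondeg_of_CR {K : Type} [Field K] [CharZero K] {S : Set (Matrix (Fin N) (Fin N) K)}
    (h : CR S) : Nondeg (Algebra.adjoin K S) := by
  set A := Algebra.adjoin K S with hA
  set AE : Subalgebra K (Module.End K (Fin N → K)) :=
    A.map (Matrix.toLinAlgEquiv' (R := K) (n := Fin N)).toAlgHom with hAE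
  have hmem : ∀ X : Matrix (Fin N) (Fin N) K, X ∈ A → Matrix.toLin' X ∈ AE := fun X hX =>
    ⟨X, hX, rfl⟩
  have hss : IsSemisimpleModule AE (Fin N → K) := by
    refine @IsSemisimpleModule.mk _ _ _ _ _ ⟨fun W => ?_⟩
    obtain ⟨W', hW', hc⟩ := h (W.restrictScalars K) (by
      intro X hX x hx
      exact W.smul_mem (⟨Matrix.toLin' X, hmem X (Algebra.subset_adjoin hX)⟩ : AE) hx)
    have hst := stable_adjoin hW'
    refine ⟨{ carrier := W'
              add_mem' := W'.add_mem
              zero_mem' := W'.zero_mem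
              smul_mem' := fun a x hx => by
                obtain ⟨X, hX, hXa⟩ := a.2
                have h1 : a • x = X.mulVec x := by
                  change (a : Module.End K (Fin N → K)) x = X.mulVec x
                  rw [← hXa]
                  rfl
                rw [h1]
                exact hst X hX x hx }, ?_⟩
    rw [isCompl_iff] at hc ⊢
    constructor
    · rw [Submodule.disjoint_def]
      intro x hx hx'
      exact (Submodule.disjoint_def.1 hc.1) x hx hx'
    · rw [codisjoint_iff, eq_top_iff]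
      intro x _
      have h3 : x ∈ W.restrictScalars K ⊔ W' := by rw [codisjoint_iff.1 hc.2]; trivial
      obtain ⟨y, hy, z, hz, rfl⟩ := Submodule.mem_sup.1 h3
      exact Submodule.add_mem_sup hy hz
  intro a ha htr
  have h1 := trace_nondeg AE (Matrix.toLin' a) (hmem a ha) (by
    rintro _ ⟨b, hb, rfl⟩
    have h2 : Matrix.toLin' a * Matrix.toLin' b = Matrix.toLin' (a * b) := by
      rw [Matrix.toLin'_mul]
      rfl
    change LinearMap.trace K _ (Matrix.toLin' a * Matrix.toLin' b) = 0
    rw [h2, Matrix.trace_toLin'_eq]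
    exact htr b hb)
  exact (map_eq_zero_iff _ Matrix.toLin'.injective).1 h1

theorem CR_of_semisimple {F : Type} [Field F] (A : Subalgebra F (Matrix (Fin N) (Fin N) F))
    (hA : IsSemisimpleRing A) : CR (A : Set (Matrix (Fin N) (Fin N) F)) := by
  intro W hW
  let φ : A →+* Module.End F (Fin N → F) :=
    (((Matrix.toLinAlgEquiv' (R := F) (n := Fin N)).toAlgHom.comp A.val) :
      A →ₐ[F] Module.End F (Fin N → F))
  let _i : Module A (Fin N → F) := Module.compHom (Fin N → F) φ
  have hsmul : ∀ (a : A) (x : Fin N → F), a • x = (a : Matrix (Fin N) (Fin N) F).mulVec x :=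
    fun a x => rfl
  let W1 : Submodule A (Fin N → F) :=
    { carrier := W
      add_mem' := W.add_mem
      zero_mem' := W.zero_mem
      smul_mem' := fun a x hx => hW a a.2 x hx }
  obtain ⟨U, hU⟩ := exists_isCompl W1
  refine ⟨{ carrier := U
            add_mem' := U.add_mem
            zero_mem' := U.zero_mem
            smul_mem' := fun c x hx => by
              have h1 : c • x = (algebraMap F A c) • x := by
                change c • x = ((algebraMap F A c : A) : Matrix (Fin N) (Fin N) F).mulVec x
                have h2 : ((algebraMap F A c : A) : Matrix (Fin N) (Fin N) F) =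
                  c • (1 : Matrix (Fin N) (Fin N) F) := Algebra.algebraMap_eq_smul_one c
                rw [h2, Matrix.smul_mulVec, Matrix.one_mulVec]
              rw [h1]
              exact U.smul_mem _ hx }, ?_, ?_⟩
  · intro X hX x hx
    exact U.smul_mem (⟨X, hX⟩ : A) hx
  · rw [isCompl_iff] at hU ⊢
    constructor
    · rw [Submodule.disjoint_def]
      intro x hx hx'
      exact (Submodule.disjoint_def.1 hU.1) x hx hx'
    · rw [codisjoint_iff, eq_top_iff]
      intro x _
      have h3 : x ∈ W1 ⊔ U := by rw [codisjoint_iff.1 hU.2]; trivial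
      obtain ⟨y, hy, z, hz, rfl⟩ := Submodule.mem_sup.1 h3
      exact Submodule.add_mem_sup hy hz

theorem exists_lie_pair {F : Type} [Field F] [IsAlgClosed F] [CharZero F]
    (𝔥 : Submodule F (Matrix (Fin N) (Fin N) F)) (hbr : ∀ X ∈ 𝔥, ∀ Y ∈ 𝔥, X * Y - Y * X ∈ 𝔥)
    (hCR : CR (𝔥 : Set (Matrix (Fin N) (Fin N) F))) :
    ∃ X ∈ 𝔥, ∃ Y ∈ 𝔥, ∀ Z ∈ 𝔥, Z ∈ Algebra.adjoin F {X, Y} := by
  let L : LieSubalgebra F (Module.End F (Fin N → F)) :=
    { carrier := {φ | LinearMap.toMatrix' φ ∈ 𝔥}
      add_mem' := by
        intro φ ψ h h'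
        change LinearMap.toMatrix' (φ + ψ) ∈ 𝔥
        rw [map_add]
        exact 𝔥.add_mem h h'
      zero_mem' := by
        change LinearMap.toMatrix' 0 ∈ 𝔥
        rw [map_zero]
        exact 𝔥.zero_mem
      smul_mem' := by
        intro c φ h
        change LinearMap.toMatrix' (c • φ) ∈ 𝔥
        rw [map_smul]
        exact 𝔥.smul_mem c h
      lie_mem' := by
        intro φ ψ h h'
        change LinearMap.toMatrix' (φ * ψ - ψ * φ) ∈ 𝔥
        rw [map_sub, Module.End.mul_eq_comp, Module.End.mul_eq_comp, LinearMap.toMatrix'_comp,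
          LinearMap.toMatrix'_comp]
        exact hbr _ h _ h' }
  have hL : ∀ X ∈ 𝔥, Matrix.toLin' X ∈ L := by
    intro X hX
    change LinearMap.toMatrix' (Matrix.toLin' X) ∈ 𝔥
    rwa [LinearMap.toMatrix'_toLin']
  have hcomp : ComplementedLattice (LieSubmodule F L (Fin N → F)) := by
    refine ⟨fun W => ?_⟩
    obtain ⟨W', hW', hc⟩ := hCR W.toSubmodule (by
      intro X hX x hx
      exact W.lie_mem (x := (⟨Matrix.toLin' X, hL X hX⟩ : L)) hx)
    refine ⟨{ toSubmodule := W'
              lie_mem := fun {φ x} hx => by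
                have h1 : ⁅φ, x⁆ = (LinearMap.toMatrix' (φ : Module.End F (Fin N → F))).mulVec x := by
                  rw [← Matrix.toLin'_apply, Matrix.toLin'_toMatrix']
                  rfl
                change ⁅φ, x⁆ ∈ W'
                rw [h1]
                exact hW' _ φ.2 x hx }, ?_⟩
    rw [← LieSubmodule.isCompl_toSubmodule]
    exact hc
  have hfaith : IsFaithful F L (Fin N → F) := by
    rw [isFaithful_iff]
    intro φ ψ h
    apply Subtype.ext
    exact h
  obtain ⟨X, Y, hXY⟩ := exists_two_generators F L (Fin N → F)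
  refine ⟨LinearMap.toMatrix' X.1, X.2, LinearMap.toMatrix' Y.1, Y.2, ?_⟩
  intro Z hZ
  have h1 := hXY ⟨Matrix.toLin' Z, hL Z hZ⟩
  have h2 : (Matrix.toLin' Z : Module.End F (Fin N → F)) ∈
      Algebra.adjoin F {(X : Module.End F (Fin N → F)), (Y : Module.End F (Fin N → F))} := h1
  have h3 : LinearMap.toMatrixAlgEquiv' (Matrix.toLin' Z : Module.End F (Fin N → F)) ∈
      (Algebra.adjoin F {(X : Module.End F (Fin N → F)), (Y : Module.End F (Fin N → F))}).map
        (LinearMap.toMatrixAlgEquiv' (R := F) (n := Fin N)).toAlgHom := ⟨_, h2, rfl⟩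
  rw [AlgHom.map_adjoin] at h3
  have h4 : LinearMap.toMatrixAlgEquiv' (Matrix.toLin' Z : Module.End F (Fin N → F)) = Z :=
    LinearMap.toMatrix'_toLin' Z
  rw [h4] at h3
  have h5 : (LinearMap.toMatrixAlgEquiv' (R := F) (n := Fin N)).toAlgHom ''
      {(X : Module.End F (Fin N → F)), (Y : Module.End F (Fin N → F))} =
      {LinearMap.toMatrix' X.1, LinearMap.toMatrix' Y.1} := by
    rw [Set.image_pair]
    rfl
  rw [h5] at h3
  exact h3

end Pool.Agent.H850.TF
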