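import Pool.Agent.H850.TF.Main

/-!
# Two elements generate the algebra of a small semisimple `p`-adic group
-/

set_option autoImplicit false
set_option linter.unusedSectionVars false

namespace Pool.Agent.H850.TF

variable {N : ℕ} {p : ℕ} [Fact p.Prime]

theorem stable_span {F : Type} [Field F] {S : Set (Matrix (Fin N) (Fin N) F)}
    {W : Submodule F (Fin N → F)} (h : ∀ A ∈ S, ∀ x ∈ W, A.mulVec x ∈ W) :
    ∀ A ∈ Submodule.span F S, ∀ x ∈ W, A.mulVec x ∈ W := by
  intro A hA
  exact stable_adjoin h A (Algebra.span_le_adjoin F S hA)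

theorem Small.log_adjoin {G : Set (Matrix (Fin N) (Fin N) ℤ_[p])} (hG : Small G)
    {g X : Matrix (Fin N) (Fin N) ℤ_[p]} (hg : g ∈ G) (hX : IsLog g X) :
    toQ X ∈ Algebra.adjoin ℚ_[p] {toQ g} ∧ toQ g ∈ Algebra.adjoin ℚ_[p] {toQ X} := by
  obtain ⟨X', hX', h1, h2⟩ := hG.exists_log hg
  rw [hX.unique hX']
  exact ⟨h1, h2⟩

theorem Small.CR_lieSpan {G : Set (Matrix (Fin N) (Fin N) ℤ_[p])} (hG : Small G)
    (hCR : CR (toQ '' G)) : CR (lieSpan G : Set (Matrix (Fin N) (Fin N) ℚ_[p])) := by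
  intro W hW
  obtain ⟨W', hW', hc⟩ := hCR W (by
    rintro _ ⟨g, hg, rfl⟩
    obtain ⟨X, hX, -, h2⟩ := hG.exists_log hg
    refine stable_adjoin (S := {toQ X}) ?_ _ h2
    intro A hA
    rw [Set.mem_singleton_iff] at hA
    rw [hA]
    exact hW _ (Submodule.subset_span ⟨X, ⟨g, hg, hX⟩, rfl⟩))
  refine ⟨W', ?_, hc⟩
  refine stable_span ?_
  rintro _ ⟨X, ⟨g, hg, hX⟩, rfl⟩
  refine stable_adjoin (S := {toQ g}) ?_ _ (hG.log_adjoin hg hX).1
  intro A hA
  rw [Set.mem_singleton_iff] at hA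
  rw [hA]
  exact hW' _ ⟨g, hg, rfl⟩

theorem bc_mem_adjoin {K F : Type} [Field K] [CharZero K] [Field F] [Algebra K F]
    {S : Set (Matrix (Fin N) (Fin N) K)} {x : Matrix (Fin N) (Fin N) K}
    (hx : x ∈ Algebra.adjoin K S) :
    (bc x : Matrix (Fin N) (Fin N) F) ∈ Algebra.adjoin F (img F S) := by
  induction hx using Algebra.adjoin_induction with
  | mem x hx => exact Algebra.subset_adjoin ⟨x, hx, rfl⟩
  | algebraMap r =>
    rw [Algebra.algebraMap_eq_smul_one, bc_smul, map_one]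
    exact Subalgebra.smul_mem _ (Subalgebra.one_mem _) _
  | add x y _ _ hx hy => rw [map_add]; exact Subalgebra.add_mem _ hx hy
  | mul x y _ _ hx hy => rw [map_mul]; exact Subalgebra.mul_mem _ hx hy

theorem bc_linearIndependent {K F : Type} [Field K] [CharZero K] [Field F] [Algebra K F] {D : ℕ}
    (v : Fin D → Matrix (Fin N) (Fin N) K) (hv : LinearIndependent K v) :
    LinearIndependent F fun i => (bc (v i) : Matrix (Fin N) (Fin N) F) := by
  have h1 : LinearIndependent K fun i => ent (v i) := by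
    let f : Matrix (Fin N) (Fin N) K →ₗ[K] (Fin N × Fin N → K) :=
      { toFun := ent, map_add' := fun _ _ => rfl, map_smul' := fun _ _ => rfl }
    have hf : LinearMap.ker f = ⊥ := by
      rw [LinearMap.ker_eq_bot]
      intro A B h
      ext i j
      exact congrFun h (i, j)
    exact hv.map' f hf
  obtain ⟨e, he⟩ := exists_positions _ h1
  have h2 : (Matrix.of fun i j => ent (bc (v i) : Matrix (Fin N) (Fin N) F) (e j)).det ≠ 0 := by
    have h3 : (Matrix.of fun i j => ent (bc (v i) : Matrix (Fin N) (Fin N) F) (e j)) =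
        (algebraMap K F).mapMatrix (Matrix.of fun i j => ent (v i) (e j)) := rfl
    rw [h3, ← RingHom.map_det]
    exact fun h => he ((map_eq_zero _).1 h)
  have h4 := linearIndependent_of_minor
    (fun i => ent (bc (v i) : Matrix (Fin N) (Fin N) F)) e h2
  let f : Matrix (Fin N) (Fin N) F →ₗ[F] (Fin N × Fin N → F) :=
    { toFun := ent, map_add' := fun _ _ => rfl, map_smul' := fun _ _ => rfl }
  exact LinearIndependent.of_comp f h4

theorem coords_mem_span {F : Type} [Field F] [Algebra ℚ_[p] F]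
    {G : Set (Matrix (Fin N) (Fin N) ℤ_[p])} (hG : Small G)
    {X Y : Matrix (Fin N) (Fin N) F}
    (hX : X ∈ Submodule.span F (img F (toQ '' LogSet G)))
    (hY : Y ∈ Submodule.span F (img F (toQ '' LogSet G))) :
    coords X Y ∈ Submodule.span F
      ((fun x : Fin 2 × Fin N × Fin N → ℚ_[p] => fun j => algebraMap ℚ_[p] F (x j)) ''
        pairSet G) := by
  let f1 : Matrix (Fin N) (Fin N) F →ₗ[F] (Fin 2 × Fin N × Fin N → F) :=
    { toFun := fun X => coords X 0
      map_add' := fun X Y => by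
        funext q
        simp only [coords, Pi.add_apply]
        split_ifs <;> simp
      map_smul' := fun c X => by
        funext q
        simp only [coords, Pi.smul_apply, RingHom.id_apply]
        split_ifs <;> simp }
  let f2 : Matrix (Fin N) (Fin N) F →ₗ[F] (Fin 2 × Fin N × Fin N → F) :=
    { toFun := fun Y => coords 0 Y
      map_add' := fun X Y => by
        funext q
        simp only [coords, Pi.add_apply]
        split_ifs <;> simp
      map_smul' := fun c X => by
        funext q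
        simp only [coords, Pi.smul_apply, RingHom.id_apply]
        split_ifs <;> simp }
  have h12 : coords X Y = f1 X + f2 Y := by
    funext q
    simp only [f1, f2, LinearMap.coe_mk, AddHom.coe_mk, coords, Pi.add_apply]
    split_ifs <;> simp
  rw [h12]
  refine Submodule.add_mem _ ?_ ?_
  · refine (Submodule.span_le (p := (Submodule.span F
      ((fun x : Fin 2 × Fin N × Fin N → ℚ_[p] => fun j => algebraMap ℚ_[p] F (x j)) ''
        pairSet G)).comap f1)).2 ?_ hX
    rintro _ ⟨_, ⟨Z, hZ, rfl⟩, rfl⟩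
    refine Submodule.subset_span ⟨coords (toQ Z) (toQ 0), ⟨Z, hZ, 0, hG.zero_mem, rfl⟩, ?_⟩
    funext q
    simp only [f1, LinearMap.coe_mk, AddHom.coe_mk, coords]
    split_ifs
    · rfl
    · simp
  · refine (Submodule.span_le (p := (Submodule.span F
      ((fun x : Fin 2 × Fin N × Fin N → ℚ_[p] => fun j => algebraMap ℚ_[p] F (x j)) ''
        pairSet G)).comap f2)).2 ?_ hY
    rintro _ ⟨_, ⟨Z, hZ, rfl⟩, rfl⟩
    refine Submodule.subset_span ⟨coords (toQ 0) (toQ Z), ⟨0, hG.zero_mem, Z, hZ, rfl⟩, ?_⟩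
    funext q
    simp only [f2, LinearMap.coe_mk, AddHom.coe_mk, coords]
    split_ifs
    · simp
    · rfl

/-- **Two elements generate.** -/
theorem two_elements {G : Set (Matrix (Fin N) (Fin N) ℤ_[p])} (hG : Small G)
    (hCR : CR (toQ '' G)) :
    ∃ g ∈ G, ∃ h ∈ G, ∀ γ ∈ G, toQ γ ∈ Algebra.adjoin ℚ_[p] {toQ g, toQ h} := by
  classical
  let F := AlgebraicClosure ℚ_[p]
  have hchar : CharZero F := charZero_of_injective_algebraMap (algebraMap ℚ_[p] F).injective
  set 𝔤 := lieSpan G with h𝔤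
  have hCR𝔤 := hG.CR_lieSpan hCR
  set A := Algebra.adjoin ℚ_[p] (𝔤 : Set (Matrix (Fin N) (Fin N) ℚ_[p])) with hA
  have hss := semisimple_of_nondeg _ (nondeg_bc (F := F) A (nondeg_of_CR hCR𝔤))
  have hCRF := CR_of_semisimple _ hss
  -- the Lie algebra over the algebraic closure
  set S : Set (Matrix (Fin N) (Fin N) F) := img F (toQ '' LogSet G) with hS
  set 𝔥 := Submodule.span F S with h𝔥
  have hS𝔤 : S ⊆ img F (𝔤 : Set (Matrix (Fin N) (Fin N) ℚ_[p])) := by
    rintro _ ⟨X, hX, rfl⟩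
    exact ⟨X, Submodule.subset_span hX, rfl⟩
  have h𝔤𝔥 : ∀ X ∈ 𝔤, (bc X : Matrix (Fin N) (Fin N) F) ∈ 𝔥 := by
    intro X hX
    induction hX using Submodule.span_induction with
    | mem X hX => exact Submodule.subset_span ⟨X, hX, rfl⟩
    | zero => rw [map_zero]; exact 𝔥.zero_mem
    | add X Y _ _ hX hY => rw [map_add]; exact 𝔥.add_mem hX hY
    | smul c X _ hX => rw [bc_smul]; exact 𝔥.smul_mem _ hX
  have hbr : ∀ X ∈ 𝔥, ∀ Y ∈ 𝔥, X * Y - Y * X ∈ 𝔥 := by
    intro X hX Y hY
    induction hX using Submodule.span_induction with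
    | mem X hX =>
      induction hY using Submodule.span_induction with
      | mem Y hY =>
        obtain ⟨_, ⟨X', hX', rfl⟩, rfl⟩ := hX
        obtain ⟨_, ⟨Y', hY', rfl⟩, rfl⟩ := hY
        have h7 := h𝔤𝔥 _ (hG.bracket_log hX' hY')
        rw [map_sub, map_mul (bc (K := ℚ_[p]) (F := F)), map_mul (bc (K := ℚ_[p]) (F := F))] at h7
        exact h7
      | zero => simp
      | add Y Y' _ _ h h' =>
        have : X * (Y + Y') - (Y + Y') * X = (X * Y - Y * X) + (X * Y' - Y' * X) := by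
          rw [mul_add, add_mul]; abel
        rw [this]
        exact 𝔥.add_mem h h'
      | smul c Y _ h =>
        have : X * (c • Y) - (c • Y) * X = c • (X * Y - Y * X) := by
          rw [mul_smul_comm, smul_mul_assoc, smul_sub]
        rw [this]
        exact 𝔥.smul_mem _ h
    | zero => simp
    | add X X' _ _ h h' =>
      have : (X + X') * Y - Y * (X + X') = (X * Y - Y * X) + (X' * Y - Y * X') := by
        rw [mul_add, add_mul]; abel
      rw [this]
      exact 𝔥.add_mem h h'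
    | smul c X _ h =>
      have : (c • X) * Y - Y * (c • X) = c • (X * Y - Y * X) := by
        rw [mul_smul_comm, smul_mul_assoc, smul_sub]
      rw [this]
      exact 𝔥.smul_mem _ h
  have hAimg : img F (A : Set (Matrix (Fin N) (Fin N) ℚ_[p])) ⊆
      (Algebra.adjoin F (img F (𝔤 : Set (Matrix (Fin N) (Fin N) ℚ_[p]))) : Set _) := by
    rintro _ ⟨x, hx, rfl⟩
    exact bc_mem_adjoin hx
  have h𝔤img : (img F (𝔤 : Set (Matrix (Fin N) (Fin N) ℚ_[p]))) ⊆ (𝔥 : Set _) := by
    rintro _ ⟨x, hx, rfl⟩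
    exact h𝔤𝔥 x hx
  have hCR𝔥 : CR (𝔥 : Set (Matrix (Fin N) (Fin N) F)) := by
    intro W hW
    obtain ⟨W', hW', hc⟩ := hCRF W (by
      refine stable_adjoin ?_
      intro X hX
      exact stable_adjoin (fun Y hY => hW Y (h𝔤img hY)) X (hAimg hX))
    refine ⟨W', ?_, hc⟩
    refine stable_span ?_
    intro X hX
    obtain ⟨Y, hY, rfl⟩ := hS𝔤 hX
    exact hW' _ (Algebra.subset_adjoin ⟨Y, Algebra.subset_adjoin hY, rfl⟩)
  obtain ⟨X, hX, Y, hY, hXY⟩ := exists_lie_pair 𝔥 hbr hCR𝔥
  -- dimensions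
  set D := Module.finrank ℚ_[p] A with hD
  have hDle : D ≤ Module.finrank F (Submodule.span F (Set.range (wd X Y))) := by
    rw [← adjoin_pair_eq_span]
    set b := Module.finBasis ℚ_[p] A
    have h1 : LinearIndependent ℚ_[p] fun i => (b i : Matrix (Fin N) (Fin N) ℚ_[p]) :=
      b.linearIndependent.map' A.val.toLinearMap (LinearMap.ker_eq_bot.2 Subtype.val_injective)
    have h2 := bc_linearIndependent (F := F) _ h1
    have h3 : ∀ i, (bc (b i : Matrix (Fin N) (Fin N) ℚ_[p]) : Matrix (Fin N) (Fin N) F) ∈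
        Algebra.adjoin F {X, Y} := by
      intro i
      have h4 := bc_mem_adjoin (F := F) (b i).2
      have h5 : Algebra.adjoin F (img F (𝔤 : Set (Matrix (Fin N) (Fin N) ℚ_[p]))) ≤
          Algebra.adjoin F {X, Y} := by
        apply Algebra.adjoin_le
        intro Z hZ
        exact hXY Z (h𝔤img hZ)
      exact h5 h4
    have h6 : LinearIndependent F fun i =>
        (⟨bc (b i : Matrix (Fin N) (Fin N) ℚ_[p]), h3 i⟩ :
          Subalgebra.toSubmodule (Algebra.adjoin F {X, Y})) :=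
      LinearIndependent.of_comp (Submodule.subtype _) h2
    have := h6.fintype_card_le_finrank
    simpa using this
  obtain ⟨w, e, hwe⟩ := exists_minor X Y D hDle
  -- descend to logarithms
  obtain ⟨Xl, hXl, Yl, hYl, hminor⟩ : ∃ Xl ∈ LogSet G, ∃ Yl ∈ LogSet G,
      minor w e (toQ Xl) (toQ Yl) ≠ 0 := by
    by_contra hc
    push Not at hc
    apply hwe
    have h1 := vanish_span hG.approx hG.zero_mem_pairSet (genMinor ℚ_[p] w e) (by
      rintro _ ⟨Xl, hXl, Yl, hYl, rfl⟩
      have h2 := aeval_genMinor (K := ℚ_[p]) w e (toQ Xl) (toQ Yl)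
      rw [hc Xl hXl Yl hYl] at h2
      exact h2) (coords X Y) (coords_mem_span hG hX hY)
    have h3 := aeval_genMinor (K := ℚ_[p]) w e X Y
    exact h3.symm.trans h1
  have hle : Algebra.adjoin ℚ_[p] {toQ Xl, toQ Yl} ≤ A := by
    apply Algebra.adjoin_le
    intro Z hZ
    rcases hZ with rfl | hZ
    · exact Algebra.subset_adjoin (Submodule.subset_span ⟨Xl, hXl, rfl⟩)
    · rw [Set.mem_singleton_iff] at hZ
      rw [hZ]
      exact Algebra.subset_adjoin (Submodule.subset_span ⟨Yl, hYl, rfl⟩)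
  have hfr := le_finrank_of_minor _ _ w e hminor
  have heq : Subalgebra.toSubmodule (Algebra.adjoin ℚ_[p] {toQ Xl, toQ Yl}) =
      Subalgebra.toSubmodule A := by
    apply Submodule.eq_of_le_of_finrank_le hle
    exact hfr
  obtain ⟨g, hg, hgl⟩ := hXl
  obtain ⟨h, hh, hhl⟩ := hYl
  refine ⟨g, hg, h, hh, ?_⟩
  have hA2 : A ≤ Algebra.adjoin ℚ_[p] {toQ g, toQ h} := by
    intro Z hZ
    have h1 : Z ∈ Algebra.adjoin ℚ_[p] {toQ Xl, toQ Yl} := by
      rw [← Subalgebra.mem_toSubmodule, heq]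
      exact hZ
    have h2 : Algebra.adjoin ℚ_[p] {toQ Xl, toQ Yl} ≤ Algebra.adjoin ℚ_[p] {toQ g, toQ h} := by
      apply Algebra.adjoin_le
      intro Z hZ
      rcases hZ with rfl | hZ
      · exact Algebra.adjoin_mono (by simp) (hG.log_adjoin hg hgl).1
      · rw [Set.mem_singleton_iff] at hZ
        rw [hZ]
        exact Algebra.adjoin_mono (by simp) (hG.log_adjoin hh hhl).1
    exact h2 h1
  intro γ hγ
  apply hA2
  obtain ⟨Z, hZ, -, h2⟩ := hG.exists_log hγ
  have h3 : Algebra.adjoin ℚ_[p] {toQ Z} ≤ A := by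
    apply Algebra.adjoin_le
    intro W hW
    rw [Set.mem_singleton_iff] at hW
    rw [hW]
    exact Algebra.subset_adjoin (Submodule.subset_span ⟨Z, ⟨γ, hγ, hZ⟩, rfl⟩)
  exact h3 h2

end Pool.Agent.H850.TF
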